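import Mathlib

/-! # Quadratic characters on sumsets -/

set_option autoImplicit false

namespace Pool.Agent.SqLB

open Finset

/-- the quadratic character mod `p` of an integer -/
noncomputable def chi (p : ℕ) [Fact p.Prime] (t : ZMod p) : ℝ := ((quadraticChar (ZMod p) t : ℤ) : ℝ)

section one

variable {p : ℕ} [Fact p.Prime]

theorem chi_zero : chi p 0 = 0 := by
  simp [chi]

theorem chi_mul (x y : ZMod p) : chi p (x * y) = chi p x * chi p y := by
  unfold chi
  rw [map_mul, Int.cast_mul]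

theorem chi_sq (x : ZMod p) (hx : x ≠ 0) : chi p (x ^ 2) = 1 := by
  unfold chi
  rw [quadraticChar_sq_one' hx]
  simp

theorem chi_mul_self (x : ZMod p) (hx : x ≠ 0) : chi p x * chi p x = 1 := by
  rw [← chi_mul, ← pow_two, chi_sq x hx]

theorem chi_abs_le (x : ZMod p) : |chi p x| ≤ 1 := by
  by_cases hx : x = 0
  · rw [hx, chi_zero]; simp
  · have h := chi_mul_self x hx
    rw [abs_le]
    constructor <;> nlinarith

theorem chi_sum (hp : p ≠ 2) : ∑ x : ZMod p, chi p x = 0 := by
  unfold chi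
  rw [← Int.cast_sum, quadraticChar_sum_zero, Int.cast_zero]
  rw [ZMod.ringChar_zmod_n]
  exact hp

/-- sum of `chi (x + h) chi x` -/
theorem chi_corr (hp : p ≠ 2) (h : ZMod p) (hh : h ≠ 0) : ∑ x : ZMod p, chi p (x + h) * chi p x = -1 := by
  classical
  have h1 : ∑ x : ZMod p, chi p (x + h) * chi p x = ∑ x ∈ (univ : Finset (ZMod p)).erase 0, chi p (1 + h * x⁻¹) := by
    rw [← Finset.sum_erase (s := univ) (a := (0 : ZMod p))]
    · refine Finset.sum_congr rfl fun x hx => ?_
      have hx0 : x ≠ 0 := (Finset.mem_erase.mp hx).1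
      have e : (x + h) * x = x ^ 2 * (1 + h * x⁻¹) := by
        field_simp
      rw [← chi_mul, e, chi_mul, chi_sq x hx0, one_mul]
    · rw [chi_zero, mul_zero]
  have h2 : ∑ x ∈ (univ : Finset (ZMod p)).erase 0, chi p (1 + h * x⁻¹)
      = ∑ y ∈ (univ : Finset (ZMod p)).erase 1, chi p y := by
    refine Finset.sum_bij' (fun x _ => 1 + h * x⁻¹) (fun y _ => h * (y - 1)⁻¹) ?_ ?_ ?_ ?_ ?_
    · intro x hx
      have hx0 : x ≠ 0 := (Finset.mem_erase.mp hx).1
      refine Finset.mem_erase.mpr ⟨?_, Finset.mem_univ _⟩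
      intro e
      have : h * x⁻¹ = 0 := by linear_combination e
      rcases mul_eq_zero.mp this with h0 | h0
      · exact hh h0
      · exact hx0 (inv_eq_zero.mp h0)
    · intro y hy
      have hy1 : y ≠ 1 := (Finset.mem_erase.mp hy).1
      refine Finset.mem_erase.mpr ⟨?_, Finset.mem_univ _⟩
      exact mul_ne_zero hh (inv_ne_zero (sub_ne_zero.mpr hy1))
    · intro x hx
      have hx0 : x ≠ 0 := (Finset.mem_erase.mp hx).1
      show h * (1 + h * x⁻¹ - 1)⁻¹ = x
      rw [add_sub_cancel_left, mul_inv, inv_inv, ← mul_assoc, mul_inv_cancel₀ hh, one_mul]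
    · intro y hy
      have hy1 : y ≠ 1 := (Finset.mem_erase.mp hy).1
      show 1 + h * (h * (y - 1)⁻¹)⁻¹ = y
      rw [mul_inv, inv_inv, ← mul_assoc, mul_inv_cancel₀ hh, one_mul]
      ring
    · intro x hx
      rfl
  have h3 : ∑ y ∈ (univ : Finset (ZMod p)).erase 1, chi p y = -1 := by
    have h4 := Finset.add_sum_erase (univ : Finset (ZMod p)) (chi p) (Finset.mem_univ 1)
    rw [chi_sum hp] at h4
    have h5 : chi p 1 = 1 := by simp [chi]
    rw [h5] at h4
    linarith
  rw [h1, h2, h3]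

/-- orthogonality of the translates -/
theorem chi_orth (hp : p ≠ 2) (b c : ZMod p) :
    ∑ x : ZMod p, chi p (x + b) * chi p (x + c) = (if b = c then (p : ℝ) else 0) - 1 := by
  classical
  have hsh : ∑ x : ZMod p, chi p (x + b) * chi p (x + c) = ∑ x : ZMod p, chi p (x + (b - c)) * chi p x := by
    rw [← Equiv.sum_comp (Equiv.addRight (-c)) (fun x => chi p (x + b) * chi p (x + c))]
    refine Finset.sum_congr rfl fun x _ => ?_
    simp only [Equiv.coe_addRight]
    have e1 : x + -c + b = x + (b - c) := by ring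
    have e2 : x + -c + c = x := by ring
    rw [e1, e2]
  by_cases hbc : b = c
  · rw [if_pos hbc, hsh, hbc, sub_self]
    simp only [add_zero]
    rw [← Finset.add_sum_erase univ _ (Finset.mem_univ (0 : ZMod p)), chi_zero, mul_zero, zero_add]
    rw [Finset.sum_congr rfl (fun x hx => chi_mul_self x (Finset.mem_erase.mp hx).1)]
    rw [Finset.sum_const, Finset.card_erase_of_mem (Finset.mem_univ _), Finset.card_univ, ZMod.card, nsmul_eq_mul,
      mul_one, Nat.cast_sub (Fact.out : p.Prime).one_lt.le, Nat.cast_one]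
  · rw [if_neg hbc, hsh, chi_corr hp _ (sub_ne_zero.mpr hbc)]
    ring

end one

section two

variable {p q : ℕ} [Fact p.Prime] [Fact q.Prime]

/-- pairs of `A` congruent mod `p` and mod `q` -/
def En (p q : ℕ) (A : Finset ℤ) : Finset (ℤ × ℤ) :=
  (A ×ˢ A).filter fun x => ((x.1 : ZMod p) = x.2) ∧ ((x.1 : ZMod q) = x.2)

theorem En_card (A : Finset ℤ) : ((En p q A).card : ℝ) =
    ∑ a ∈ A, ∑ b ∈ A, (if ((a : ZMod p) = b) ∧ ((a : ZMod q) = b) then (1 : ℝ) else 0) := by
  unfold En
  rw [Finset.card_filter, Nat.cast_sum, Finset.sum_product]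
  refine Finset.sum_congr rfl fun a _ => Finset.sum_congr rfl fun b _ => ?_
  split_ifs <;> simp

theorem En_ge (A : Finset ℤ) : (A.card : ℝ) ≤ (En p q A).card := by
  rw [En_card]
  calc (A.card : ℝ) = ∑ a ∈ A, (1 : ℝ) := by simp
    _ ≤ _ := by
      refine Finset.sum_le_sum fun a ha => ?_
      have h := Finset.single_le_sum (f := fun b : ℤ => (if ((a : ZMod p) = b) ∧ ((a : ZMod q) = b) then (1 : ℝ) else 0))
        (s := A) (fun b _ => by positivity) ha
      simpa using h

/-- the bilinear sum -/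
noncomputable def TT (p q : ℕ) [Fact p.Prime] [Fact q.Prime] (A B : Finset ℤ) : ℝ :=
  ∑ a ∈ A, ∑ b ∈ B, chi p ((a + b : ℤ) : ZMod p) * chi q ((a + b : ℤ) : ZMod q)

/-- Fourier-free large sieve bound for two different odd primes -/
theorem TT_sq (hp : p ≠ 2) (hq : q ≠ 2) (A B : Finset ℤ) (hB : B.card ≤ p * q) :
    (TT p q A B) ^ 2 ≤ 2 * (p * q) * ((En p q A).card * (En p q B).card) := by
  classical
  let g : ZMod p × ZMod q → ℝ := fun z => ∑ b ∈ B, chi p (z.1 + b) * chi q (z.2 + b)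
  let r : ZMod p × ZMod q → ℝ := fun z => ∑ a ∈ A, (if ((a : ZMod p), (a : ZMod q)) = z then (1 : ℝ) else 0)
  have hT : TT p q A B = ∑ z, r z * g z := by
    have h1 : ∀ a ∈ A, (∑ b ∈ B, chi p ((a + b : ℤ) : ZMod p) * chi q ((a + b : ℤ) : ZMod q))
        = ∑ z, (if ((a : ZMod p), (a : ZMod q)) = z then (1 : ℝ) else 0) * g z := by
      intro a _
      simp only [ite_mul, one_mul, zero_mul, Finset.sum_ite_eq, Finset.mem_univ, if_true]
      show _ = ∑ b ∈ B, chi p ((a : ZMod p) + b) * chi q ((a : ZMod q) + b)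
      simp only [Int.cast_add]
    unfold TT
    rw [Finset.sum_congr rfl h1, Finset.sum_comm]
    refine Finset.sum_congr rfl fun z _ => ?_
    rw [← Finset.sum_mul]
  have hr : ∑ z, (r z) ^ 2 = (En p q A).card := by
    rw [En_card]
    have h1 : ∀ z, (r z) ^ 2 = ∑ a ∈ A, ∑ b ∈ A,
        ((if ((a : ZMod p), (a : ZMod q)) = z then (1 : ℝ) else 0) *
          (if ((b : ZMod p), (b : ZMod q)) = z then (1 : ℝ) else 0)) := by
      intro z
      rw [pow_two, Finset.sum_mul_sum]
    rw [Finset.sum_congr rfl (fun z _ => h1 z), Finset.sum_comm]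
    refine Finset.sum_congr rfl fun a _ => ?_
    rw [Finset.sum_comm]
    refine Finset.sum_congr rfl fun b _ => ?_
    simp only [ite_mul, one_mul, zero_mul, Finset.sum_ite_eq, Finset.mem_univ, if_true, Prod.mk.injEq]
    refine if_congr ?_ rfl rfl
    constructor
    · rintro ⟨h, h'⟩; exact ⟨h.symm, h'.symm⟩
    · rintro ⟨h, h'⟩; exact ⟨h.symm, h'.symm⟩
  have hg : ∑ z, (g z) ^ 2 ≤ (p * q) * (En p q B).card + (B.card : ℝ) ^ 2 := by
    have h1 : ∀ z : ZMod p × ZMod q, (g z) ^ 2 = ∑ b ∈ B, ∑ c ∈ B,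
        ((chi p (z.1 + b) * chi p (z.1 + c)) * (chi q (z.2 + b) * chi q (z.2 + c))) := by
      intro z
      rw [pow_two, Finset.sum_mul_sum]
      refine Finset.sum_congr rfl fun b _ => Finset.sum_congr rfl fun c _ => ?_
      ring
    have h2 : ∑ z, (g z) ^ 2 = ∑ b ∈ B, ∑ c ∈ B, (((if (b : ZMod p) = c then (p : ℝ) else 0) - 1) *
        ((if (b : ZMod q) = c then (q : ℝ) else 0) - 1)) := by
      rw [Finset.sum_congr rfl (fun z _ => h1 z), Finset.sum_comm]
      refine Finset.sum_congr rfl fun b _ => ?_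
      rw [Finset.sum_comm]
      refine Finset.sum_congr rfl fun c _ => ?_
      rw [← chi_orth hp, ← chi_orth hq, Finset.sum_mul_sum, ← Finset.univ_product_univ, Finset.sum_product]
    rw [h2, En_card, Finset.mul_sum]
    have h3 : ((B.card : ℝ)) ^ 2 = ∑ b ∈ B, ∑ c ∈ B, (1 : ℝ) := by
      simp [pow_two]
    rw [h3, ← Finset.sum_add_distrib]
    refine Finset.sum_le_sum fun b _ => ?_
    rw [Finset.mul_sum, ← Finset.sum_add_distrib]
    refine Finset.sum_le_sum fun c _ => ?_
    have p0 : (0 : ℝ) ≤ p := Nat.cast_nonneg _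
    have q0 : (0 : ℝ) ≤ q := Nat.cast_nonneg _
    by_cases e1 : (b : ZMod p) = c <;> by_cases e2 : (b : ZMod q) = c <;>
      simp only [e1, e2, if_true, if_false, and_self, and_false, and_true] <;> nlinarith
  have hcs := Finset.sum_mul_sq_le_sq_mul_sq univ r g
  rw [← hT, hr] at hcs
  have hE0 : (0 : ℝ) ≤ (En p q A).card := Nat.cast_nonneg _
  have hBB : (B.card : ℝ) ^ 2 ≤ (p * q) * (En p q B).card := by
    have h1 : (B.card : ℝ) ≤ p * q := by exact_mod_cast hB
    have h2 := En_ge (p := p) (q := q) B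
    have h0 : (0 : ℝ) ≤ B.card := Nat.cast_nonneg _
    have h3 : (0 : ℝ) ≤ (p : ℝ) * q := by positivity
    calc (B.card : ℝ) ^ 2 = B.card * B.card := by ring
      _ ≤ (p * q) * (En p q B).card := mul_le_mul h1 h2 h0 h3
  calc (TT p q A B) ^ 2 ≤ (En p q A).card * ∑ z, (g z) ^ 2 := hcs
    _ ≤ (En p q A).card * ((p * q) * (En p q B).card + (p * q) * (En p q B).card) :=
        mul_le_mul_of_nonneg_left (hg.trans (by linarith)) hE0
    _ = 2 * (p * q) * ((En p q A).card * (En p q B).card) := by ring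

end two

end Pool.Agent.SqLB
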