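import Mathlib

/-! # The divisor bound -/

set_option autoImplicit false

namespace Pool.Agent.SqLB

open Finset Real

/-- the part of the small primes and the part of the large primes -/
theorem card_div_le (z D : ℕ) (hz : 2 ≤ z) (hD : D ≠ 0) :
    (D.divisors.card : ℝ) ≤ ((Real.logb 2 D + 1) ^ z) * (2 : ℝ) ^ (Real.log D / Real.log z) := by
  classical
  have hz' : (2 : ℝ) ≤ z := by exact_mod_cast hz
  have hlz : 0 < Real.log z := Real.log_pos (by linarith)
  have hD1 : (1 : ℝ) ≤ D := by exact_mod_cast Nat.one_le_iff_ne_zero.mpr hD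
  have hlD : 0 ≤ Real.log D := Real.log_nonneg hD1
  have hl2 : 0 < Real.log 2 := Real.log_pos (by norm_num)
  have hlb : 0 ≤ Real.logb 2 D := div_nonneg hlD hl2.le
  rw [Nat.card_divisors hD, Nat.cast_prod]
  rw [← Finset.prod_filter_mul_prod_filter_not D.primeFactors (fun p => p < z)]
  -- exponents
  have hexp : ∀ p ∈ D.primeFactors, ((D.factorization p : ℕ) : ℝ) ≤ Real.logb 2 D := by
    intro p hp
    have hpp := Nat.prime_of_mem_primeFactors hp
    have h1 : p ^ D.factorization p ≤ D := Nat.le_of_dvd (Nat.pos_of_ne_zero hD) (Nat.ordProj_dvd D p)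
    have h2 : 2 ^ D.factorization p ≤ D := (Nat.pow_le_pow_left hpp.two_le _).trans h1
    have h3 : (2 : ℝ) ^ (D.factorization p) ≤ D := by exact_mod_cast h2
    rw [Real.le_logb_iff_rpow_le (by norm_num) (by linarith), Real.rpow_natCast]
    exact h3
  refine mul_le_mul ?_ ?_ (by positivity) (by positivity)
  · -- small primes
    have h1 : ∏ p ∈ D.primeFactors with p < z, (((D.factorization p + 1 : ℕ)) : ℝ) ≤
        ∏ _p ∈ D.primeFactors with _p < z, (Real.logb 2 D + 1) := by
      refine Finset.prod_le_prod (fun p _ => by positivity) fun p hp => ?_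
      have := hexp p (Finset.mem_filter.mp hp).1
      push_cast
      linarith
    refine h1.trans ?_
    rw [Finset.prod_const]
    refine pow_le_pow_right₀ (by linarith) ?_
    have h2 : (D.primeFactors.filter (fun p => p < z)) ⊆ Finset.range z := fun p hp =>
      Finset.mem_range.mpr (Finset.mem_filter.mp hp).2
    simpa using Finset.card_le_card h2
  · -- large primes
    have h1 : ∏ p ∈ D.primeFactors with ¬ p < z, (((D.factorization p + 1 : ℕ)) : ℝ) ≤
        ∏ p ∈ D.primeFactors with ¬ p < z, (2 : ℝ) ^ (D.factorization p) := by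
      refine Finset.prod_le_prod (fun p _ => by positivity) fun p _ => ?_
      have : D.factorization p + 1 ≤ 2 ^ D.factorization p := Nat.lt_two_pow_self
      exact_mod_cast this
    refine h1.trans ?_
    rw [Finset.prod_pow_eq_pow_sum, ← Real.rpow_natCast]
    refine Real.rpow_le_rpow_of_exponent_le (by norm_num) ?_
    rw [le_div_iff₀ hlz]
    have h3 : (z : ℝ) ^ (∑ p ∈ D.primeFactors with ¬ p < z, D.factorization p) ≤ D := by
      have h4 : z ^ (∑ p ∈ D.primeFactors with ¬ p < z, D.factorization p) ≤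
          ∏ p ∈ D.primeFactors with ¬ p < z, p ^ D.factorization p := by
        rw [← Finset.prod_pow_eq_pow_sum]
        refine Finset.prod_le_prod' fun p hp => ?_
        exact Nat.pow_le_pow_left (not_lt.mp (Finset.mem_filter.mp hp).2) _
      have h5 : ∏ p ∈ D.primeFactors with ¬ p < z, p ^ D.factorization p ≤
          ∏ p ∈ D.primeFactors, p ^ D.factorization p := by
        refine Finset.prod_le_prod_of_subset_of_one_le' (Finset.filter_subset _ _) fun p hp _ => ?_
        exact Nat.one_le_pow _ _ (Nat.prime_of_mem_primeFactors hp).pos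
      have h6 : ∏ p ∈ D.primeFactors, p ^ D.factorization p = D :=
        Nat.prod_factorization_pow_eq_self hD
      have h7 := h4.trans (h5.trans h6.le)
      exact_mod_cast h7
    have h8 := Real.log_le_log (by positivity) h3
    rw [Real.log_pow] at h8
    exact h8

/-- `τ(D) ≤ n ^ (C / log log n)` for `1 ≤ D ≤ n ^ 2` -/
theorem tau_bound : ∃ C : ℝ, 0 < C ∧ ∀ n : ℕ, 3 ≤ n → ∀ D : ℕ, D ≠ 0 → D ≤ n ^ 2 →
    (D.divisors.card : ℝ) ≤ (n : ℝ) ^ (C / Real.log (Real.log n)) := by
  refine ⟨80, by norm_num, fun n hn D hD hDn => ?_⟩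
  have hn' : (3 : ℝ) ≤ n := by exact_mod_cast hn
  have hn0 : (0 : ℝ) < n := by linarith
  set L := Real.log n with hL
  have hl2 : 0 < Real.log 2 := Real.log_pos (by norm_num)
  have hL1 : 1 < L := by
    have h1 : Real.log (Real.exp 1) < Real.log n :=
      Real.log_lt_log (Real.exp_pos 1) (by linarith [Real.exp_one_lt_d9])
    rwa [Real.log_exp] at h1
  have hLL : 0 < Real.log L := Real.log_pos hL1
  set z : ℕ := ⌊Real.sqrt L⌋₊ + 2 with hz
  have hz2 : 2 ≤ z := by omega
  have h0 := card_div_le z D hz2 hD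
  have hzL : Real.sqrt L ≤ z := by
    have := (Nat.lt_floor_add_one (Real.sqrt L)).le
    rw [hz]
    push_cast
    linarith
  have hzU : (z : ℝ) ≤ 3 * Real.sqrt L := by
    have h1 := Nat.floor_le (Real.sqrt_nonneg L)
    have h2 : 1 ≤ Real.sqrt L := by
      rw [Real.one_le_sqrt]
      exact hL1.le
    rw [hz]
    push_cast
    linarith
  have hlogz : Real.log L / 2 ≤ Real.log z := by
    rw [← Real.log_sqrt (by linarith)]
    exact Real.log_le_log (Real.sqrt_pos.mpr (by linarith)) hzL
  have hD1 : (1 : ℝ) ≤ D := by exact_mod_cast Nat.one_le_iff_ne_zero.mpr hD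
  have hlD : Real.log D ≤ 2 * L := by
    have h1 : (D : ℝ) ≤ (n : ℝ) ^ 2 := by exact_mod_cast hDn
    have h2 := Real.log_le_log (by linarith) h1
    rwa [Real.log_pow, Nat.cast_ofNat] at h2
  have hlD0 : 0 ≤ Real.log D := Real.log_nonneg hD1
  -- the second factor
  have hb : (2 : ℝ) ^ (Real.log D / Real.log z) ≤ Real.exp (4 * (L / Real.log L)) := by
    rw [Real.rpow_def_of_pos (by norm_num)]
    refine Real.exp_le_exp.mpr ?_
    have h1 : Real.log D / Real.log z ≤ 2 * L / (Real.log L / 2) :=
      div_le_div₀ (by linarith) hlD (by linarith) hlogz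
    have h2 : 2 * L / (Real.log L / 2) = 4 * (L / Real.log L) := by
      field_simp
      ring
    rw [h2] at h1
    have h3 : 0 ≤ Real.log D / Real.log z := div_nonneg hlD0 (by linarith)
    have h4 : Real.log 2 ≤ 1 := by linarith [Real.log_two_lt_d9]
    nlinarith
  -- the first factor
  have ha : (Real.logb 2 D + 1) ^ z ≤ Real.exp (76 * (L / Real.log L)) := by
    have h1 : Real.logb 2 D + 1 ≤ 5 * L := by
      have h2 : Real.logb 2 D ≤ 4 * L := by
        rw [Real.logb, div_le_iff₀ hl2]
        have := Real.log_two_gt_d9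
        nlinarith
      linarith
    have h3 : 0 < Real.logb 2 D + 1 := by
      have : 0 ≤ Real.logb 2 D := div_nonneg hlD0 hl2.le
      linarith
    have h4 : (Real.logb 2 D + 1) ^ z ≤ (5 * L) ^ z := pow_le_pow_left₀ h3.le h1 z
    refine h4.trans ?_
    have h5 : (5 * L) ^ z = Real.exp (Real.log (5 * L) * z) := by
      rw [mul_comm (Real.log (5 * L)), Real.exp_nat_mul, Real.exp_log (by linarith)]
    rw [h5]
    refine Real.exp_le_exp.mpr ?_
    rw [mul_div_assoc', le_div_iff₀ hLL]
    -- log (5 L) * z * log L ≤ 76 L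
    have h6 : Real.log L ≤ 4 * L ^ ((1 : ℝ) / 4) := by
      have := Real.log_le_rpow_div (by linarith : (0 : ℝ) ≤ L) (show (0 : ℝ) < 1 / 4 by norm_num)
      linarith
    have h7 : Real.log (5 * L) ≤ 6 * L ^ ((1 : ℝ) / 4) := by
      have h8 := Real.log_le_rpow_div (by linarith : (0 : ℝ) ≤ 5 * L) (show (0 : ℝ) < 1 / 4 by norm_num)
      rw [Real.mul_rpow (by norm_num) (by linarith)] at h8
      have h9 : (5 : ℝ) ^ ((1 : ℝ) / 4) ≤ 3 / 2 := by
        have e1 : (5 : ℝ) ^ ((1 : ℝ) / 4) ≤ (((3 : ℝ) / 2) ^ (4 : ℝ)) ^ ((1 : ℝ) / 4) := by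
          refine Real.rpow_le_rpow (by norm_num) ?_ (by norm_num)
          have e2 : ((3 : ℝ) / 2) ^ (4 : ℝ) = ((3 : ℝ) / 2) ^ (4 : ℕ) := by
            rw [← Real.rpow_natCast]
            norm_num
          rw [e2]
          norm_num
        rw [← Real.rpow_mul (by norm_num)] at e1
        have e3 : (4 : ℝ) * (1 / 4) = 1 := by norm_num
        rwa [e3, Real.rpow_one] at e1
      have h10 : 0 ≤ L ^ ((1 : ℝ) / 4) := by positivity
      nlinarith
    have h11 : L ^ ((1 : ℝ) / 4) * L ^ ((1 : ℝ) / 4) = Real.sqrt L := by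
      rw [← Real.rpow_add (by linarith), Real.sqrt_eq_rpow]
      norm_num
    have h12 : Real.sqrt L * Real.sqrt L = L := Real.mul_self_sqrt (by linarith)
    have h13 : 0 ≤ Real.log (5 * L) := Real.log_nonneg (by linarith)
    have h14 : 0 ≤ L ^ ((1 : ℝ) / 4) := by positivity
    have h15 : Real.log (5 * L) * Real.log L ≤ 24 * Real.sqrt L := by
      calc Real.log (5 * L) * Real.log L ≤ (6 * L ^ ((1 : ℝ) / 4)) * (4 * L ^ ((1 : ℝ) / 4)) :=
            mul_le_mul h7 h6 hLL.le (by positivity)
        _ = 24 * (L ^ ((1 : ℝ) / 4) * L ^ ((1 : ℝ) / 4)) := by ring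
        _ = 24 * Real.sqrt L := by rw [h11]
    have h16 : 0 ≤ Real.sqrt L := Real.sqrt_nonneg L
    have h17 : Real.log (5 * L) * z * Real.log L = (Real.log (5 * L) * Real.log L) * z := by ring
    rw [h17]
    calc (Real.log (5 * L) * Real.log L) * z ≤ (24 * Real.sqrt L) * (3 * Real.sqrt L) :=
          mul_le_mul h15 hzU (by positivity) (by positivity)
      _ = 72 * (Real.sqrt L * Real.sqrt L) := by ring
      _ = 72 * L := by rw [h12]
      _ ≤ 76 * L := by linarith
  calc (D.divisors.card : ℝ) ≤ _ := h0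
    _ ≤ Real.exp (76 * (L / Real.log L)) * Real.exp (4 * (L / Real.log L)) :=
        mul_le_mul ha hb (by positivity) (Real.exp_pos _).le
    _ = (n : ℝ) ^ ((80 : ℝ) / Real.log L) := by
        rw [← Real.exp_add, Real.rpow_def_of_pos hn0]
        congr 1
        ring

end Pool.Agent.SqLB
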