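import Mathlib

/-! # Sets with long arithmetic progressions give small sets covering the first squares -/

set_option autoImplicit false

namespace Pool.Agent.SqLB

open Finset

/-- `E` contains an arithmetic progression of length `w` with every difference `0 ≤ d < D`. -/
def HasAP (w D : ℕ) (E : Finset ℤ) : Prop :=
  ∀ d : ℕ, d < D → ∃ a : ℤ, ∀ i : ℕ, i < w → a + i * d ∈ E

/-- `2 n ≤ |E| ^ 2` -/
theorem card_of_hasAP (w n : ℕ) (hw : 2 ≤ w) (E : Finset ℤ) (hE : HasAP w (2 * n + 1) E) :
    2 * n + 1 ≤ E.card ^ 2 := by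
  classical
  have h1 : (Finset.range (2 * n + 1)).card ≤ ((E ×ˢ E).image (fun x => (x.2 - x.1).toNat)).card := by
    refine Finset.card_le_card fun d hd => ?_
    obtain ⟨a, ha⟩ := hE d (Finset.mem_range.mp hd)
    have h2 := ha 0 (by omega)
    have h3 := ha 1 (by omega)
    refine Finset.mem_image.mpr ⟨(a, a + d), Finset.mem_product.mpr ⟨?_, ?_⟩, ?_⟩
    · simpa using h2
    · simpa using h3
    · simp
  rw [Finset.card_range] at h1
  refine h1.trans (Finset.card_image_le.trans ?_)
  rw [Finset.card_product, sq]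

/-- (i) `m(n) ≤ n / w + 5 w |E|` -/
theorem cover_of_hasAP (w n : ℕ) (hw : 2 ≤ w) (hn : 1 ≤ n) (E : Finset ℤ) (hE : HasAP w (2 * n + 1) E) :
    ∃ A : Finset ℕ, (∀ k : ℕ, 1 ≤ k → k ≤ n → ∃ a ∈ A, ∃ b ∈ A, a + b = k ^ 2) ∧
      A.card ≤ n / w + 5 * w * E.card := by
  classical
  set N : ℕ := 2 * n * w with hN
  have hN0 : 0 < N := by positivity
  set E0 : Finset ℕ := E.image (fun x => (x % (N : ℤ)).toNat) with hE0
  set E1 : Finset ℕ := E0 ∪ E0.image (fun x => x + N) with hE1
  have hE0card : E0.card ≤ E.card := Finset.card_image_le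
  have hE1card : E1.card ≤ 2 * E.card := by
    refine (Finset.card_union_le _ _).trans ?_
    have := Finset.card_image_le (s := E0) (f := fun x => x + N)
    omega
  -- the progressions in `E1`
  have hAP : ∀ d : ℕ, ∃ c : ℕ, d ≤ 2 * n → c < N ∧ ∀ i < w, c + i * d ∈ E1 := by
    intro d
    by_cases hd : d ≤ 2 * n
    · obtain ⟨a, ha⟩ := hE d (by omega)
      have hNZ : (N : ℤ) ≠ 0 := by exact_mod_cast hN0.ne'
      have hpos : 0 ≤ a % (N : ℤ) := Int.emod_nonneg _ hNZ
      have hlt : a % (N : ℤ) < N := Int.emod_lt_of_pos _ (by exact_mod_cast hN0)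
      refine ⟨(a % (N : ℤ)).toNat, fun _ => ⟨by omega, fun i hi => ?_⟩⟩
      set c := (a % (N : ℤ)).toNat with hc
      have hcZ : (c : ℤ) = a % (N : ℤ) := Int.toNat_of_nonneg hpos
      have hres : ((a + i * d) % (N : ℤ)).toNat ∈ E0 := Finset.mem_image.mpr ⟨_, ha i hi, rfl⟩
      have hmod : ((a + i * d) % (N : ℤ)) = (((c + i * d : ℕ)) : ℤ) % (N : ℤ) := by
        push_cast
        rw [hcZ, Int.emod_add_emod]
      have hres2 : (c + i * d) % N ∈ E0 := by
        rw [hmod] at hres
        have : ((((c + i * d : ℕ)) : ℤ) % (N : ℤ)).toNat = (c + i * d) % N := by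
          rw [← Int.natCast_mod]
          exact Int.toNat_natCast _
        rwa [this] at hres
      have hid : i * d < N := by
        calc i * d ≤ i * (2 * n) := Nat.mul_le_mul_left _ hd
          _ < w * (2 * n) := Nat.mul_lt_mul_of_pos_right hi (by omega)
          _ = N := by rw [hN]; ring
      have hcN : c < N := by omega
      rcases Nat.lt_or_ge (c + i * d) N with h | h
      · rw [Nat.mod_eq_of_lt h] at hres2
        exact Finset.mem_union_left _ hres2
      · have h2 : (c + i * d) % N = c + i * d - N := by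
          rw [Nat.mod_eq_sub_mod h, Nat.mod_eq_of_lt (by omega)]
        rw [h2] at hres2
        exact Finset.mem_union_right _ (Finset.mem_image.mpr ⟨_, hres2, by omega⟩)
    · exact ⟨0, fun h => absurd h hd⟩
  choose c hc using hAP
  set A1 : Finset ℕ := (Finset.range (n / w + 1)).image (fun x => (w * x) ^ 2 - c (2 * (w * x))) with hA1
  set A2 : Finset ℕ := (E1 ×ˢ Finset.range w).image (fun x => x.1 + x.2 ^ 2) with hA2
  set A3 : Finset ℕ := insert 0 ((Finset.range (Nat.sqrt N + w + 1)).image (fun x => x ^ 2)) with hA3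
  refine ⟨A1 ∪ A2 ∪ A3, ?_, ?_⟩
  · intro k hk1 hkn
    set x := k / w with hx
    set X := w * x with hX
    set j := k % w with hj
    have hkX : k = X + j := (Nat.div_add_mod k w).symm
    have hjw : j < w := Nat.mod_lt _ (by omega)
    rcases Nat.lt_or_ge (X ^ 2) N with h | h
    · -- small `k`
      have hXs : X ≤ Nat.sqrt N := Nat.le_sqrt'.mpr h.le
      refine ⟨0, ?_, k ^ 2, ?_, by omega⟩
      · exact Finset.mem_union_right _ (Finset.mem_insert_self _ _)
      · refine Finset.mem_union_right _ (Finset.mem_insert_of_mem (Finset.mem_image.mpr ⟨k, ?_, rfl⟩))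
        exact Finset.mem_range.mpr (by omega)
    · have hXn : X ≤ n := by omega
      obtain ⟨h1, h2⟩ := hc (2 * X) (by omega)
      refine ⟨X ^ 2 - c (2 * X), ?_, c (2 * X) + j * (2 * X) + j ^ 2, ?_, ?_⟩
      · refine Finset.mem_union_left _ (Finset.mem_union_left _ (Finset.mem_image.mpr ⟨x, ?_, rfl⟩))
        exact Finset.mem_range.mpr (Nat.lt_succ_of_le (Nat.div_le_div_right hkn))
      · refine Finset.mem_union_left _ (Finset.mem_union_right _ (Finset.mem_image.mpr
          ⟨(c (2 * X) + j * (2 * X), j), Finset.mem_product.mpr ⟨h2 j hjw, Finset.mem_range.mpr hjw⟩, rfl⟩))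
      · have h3 : c (2 * X) ≤ X ^ 2 := by omega
        rw [hkX]
        have h4 : (X + j) ^ 2 = X ^ 2 + j * (2 * X) + j ^ 2 := by ring
        rw [h4]
        omega
  · have hcard := card_of_hasAP w n hw E hE
    have hA1c : A1.card ≤ n / w + 1 := by
      refine Finset.card_image_le.trans ?_
      rw [Finset.card_range]
    have hA2c : A2.card ≤ 2 * w * E.card := by
      refine Finset.card_image_le.trans ?_
      rw [Finset.card_product, Finset.card_range]
      calc E1.card * w ≤ (2 * E.card) * w := Nat.mul_le_mul_right _ hE1card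
        _ = 2 * w * E.card := by ring
    have hA3c : A3.card ≤ Nat.sqrt N + w + 2 := by
      refine (Finset.card_insert_le _ _).trans ?_
      have := Finset.card_image_le (s := Finset.range (Nat.sqrt N + w + 1)) (f := fun x => x ^ 2)
      rw [Finset.card_range] at this
      omega
    have hsq : Nat.sqrt N ≤ w * E.card := by
      have h9 : N ≤ (w * E.card) ^ 2 := by
        calc N = w * (2 * n) := by rw [hN]; ring
          _ ≤ w * E.card ^ 2 := Nat.mul_le_mul_left _ (by omega)
          _ ≤ (w * E.card) ^ 2 := by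
            rw [mul_pow]
            exact Nat.mul_le_mul_right _ (by nlinarith)
      have h10 := Nat.sqrt_le_sqrt h9
      rwa [Nat.sqrt_eq'] at h10
    have hE2 : 2 ≤ E.card := by
      by_contra h
      have h1 : E.card ≤ 1 := by omega
      have h2 : E.card ^ 2 ≤ 1 := by nlinarith
      omega
    have h5 : 4 * w ≤ 2 * w * E.card := by nlinarith
    have h6 : 5 * w * E.card = 2 * w * E.card + w * E.card + 2 * w * E.card := by ring
    have h7 := Finset.card_union_le (A1 ∪ A2) A3
    have h8 := Finset.card_union_le A1 A2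
    omega

end Pool.Agent.SqLB
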