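import Mathlib

/-! # From a Kakeya set to a set of lattice points -/

set_option autoImplicit false

namespace Pool.Agent.SqLB

open Finset

/-- the cells met by a set which is covered by small balls -/
theorem exists_cells (m : ℕ) (κ δ : ℝ) (hκ : 0 ≤ κ) (hκδ : κ * δ ≤ 1)
    (K : Set (EuclideanSpace ℝ (Fin m))) (s : Finset (EuclideanSpace ℝ (Fin m)))
    (hs : K ⊆ ⋃ x ∈ s, Metric.closedBall x δ) :
    ∃ Z : Finset (Fin m → ℤ), Z.card ≤ 3 ^ m * s.card ∧ ∀ p ∈ K, (fun i => ⌊κ * p i⌋) ∈ Z := by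
  classical
  set P : Finset (Fin m → ℤ) := Fintype.piFinset (fun _ => Finset.Icc (-1 : ℤ) 1) with hP
  refine ⟨s.biUnion (fun c => P.image (fun f i => ⌊κ * c i⌋ + f i)), ?_, ?_⟩
  · refine Finset.card_biUnion_le.trans ?_
    calc ∑ c ∈ s, (P.image (fun f i => ⌊κ * c i⌋ + f i)).card ≤ ∑ _c ∈ s, 3 ^ m := by
          refine Finset.sum_le_sum fun c _ => Finset.card_image_le.trans ?_
          rw [hP, Fintype.card_piFinset]
          simp
      _ = 3 ^ m * s.card := by rw [Finset.sum_const, smul_eq_mul, mul_comm]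
  · intro p hp
    obtain ⟨c, hc, hpc⟩ := Set.mem_iUnion₂.mp (hs hp)
    refine Finset.mem_biUnion.mpr ⟨c, hc, Finset.mem_image.mpr
      ⟨fun i => ⌊κ * p i⌋ - ⌊κ * c i⌋, ?_, ?_⟩⟩
    · refine Fintype.mem_piFinset.mpr fun i => ?_
      have h1 : ‖p - c‖ ≤ δ := by
        rw [Metric.mem_closedBall, dist_eq_norm] at hpc
        exact hpc
      have h2 : |p i - c i| ≤ δ := by
        have h3 := PiLp.norm_apply_le (p - c) i
        rw [Real.norm_eq_abs] at h3
        exact (by simpa using h3 : |p i - c i| ≤ ‖p - c‖).trans h1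
      have h4 : |κ * p i - κ * c i| ≤ 1 := by
        rw [← mul_sub, abs_mul, abs_of_nonneg hκ]
        exact (mul_le_mul_of_nonneg_left h2 hκ).trans hκδ
      obtain ⟨h5, h6⟩ := abs_le.mp h4
      have h7 : ⌊κ * c i⌋ - 1 ≤ ⌊κ * p i⌋ := by
        rw [Int.le_floor]
        push_cast
        have := Int.floor_le (κ * c i)
        linarith
      have h8 : ⌊κ * p i⌋ < ⌊κ * c i⌋ + 2 := by
        rw [Int.floor_lt]
        push_cast
        have := Int.lt_floor_add_one (κ * c i)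
        linarith
      rw [Finset.mem_Icc]
      constructor
      · linarith
      · omega
    · funext i
      ring

/-- the lattice set -/
theorem exists_lattice (d w W : ℕ) (hw : 1 ≤ w) (hW : 1 ≤ W)
    (K : Set (EuclideanSpace ℝ (Fin (d + 1))))
    (hK : ∀ v : EuclideanSpace ℝ (Fin (d + 1)), ‖v‖ = 1 → ∃ x, ∀ t ∈ Set.Icc (0 : ℝ) 1, x + t • v ∈ K)
    (δ : ℝ) (hδ : (w : ℝ) * W * (d + 1) * δ ≤ 1) (s : Finset (EuclideanSpace ℝ (Fin (d + 1))))
    (hs : K ⊆ ⋃ x ∈ s, Metric.closedBall x δ) :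
    ∃ E : Finset (Fin d → ℤ), W * E.card ≤ 3 ^ (d + 1) * s.card ∧
      ∀ V : Fin d → ℕ, (∀ j, V j < W) → ∃ a : Fin d → ℤ, ∀ i : ℕ, i < w →
        (fun j => a j + i * (V j : ℤ)) ∈ E := by
  classical
  set κ : ℝ := (w : ℝ) * W * (d + 1) with hκ
  have hw' : (1 : ℝ) ≤ w := by exact_mod_cast hw
  have hW' : (1 : ℝ) ≤ W := by exact_mod_cast hW
  have hd' : (0 : ℝ) ≤ d := Nat.cast_nonneg d
  have hκ0 : 0 < κ := by positivity
  obtain ⟨Z, hZc, hZ⟩ := exists_cells (d + 1) κ δ hκ0.le hδ K s hs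
  -- the class
  have hmaps : ∀ z ∈ Z, (z 0 % (W : ℤ)).toNat ∈ Finset.range W := by
    intro z _
    have h1 : 0 ≤ z 0 % (W : ℤ) := Int.emod_nonneg _ (by omega)
    have h2 : z 0 % (W : ℤ) < W := Int.emod_lt_of_pos _ (by omega)
    exact Finset.mem_range.mpr (by omega)
  obtain ⟨q, hq, hqc⟩ : ∃ q ∈ Finset.range W,
      W * (Z.filter (fun z => (z 0 % (W : ℤ)).toNat = q)).card ≤ Z.card := by
    by_contra hcon
    push Not at hcon
    have h1 := Finset.card_eq_sum_card_fiberwise hmaps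
    have h2 : W * Z.card = ∑ q ∈ Finset.range W, W * (Z.filter (fun z => (z 0 % (W : ℤ)).toNat = q)).card := by
      rw [← Finset.mul_sum, ← h1]
    have h3 : ∑ _q ∈ Finset.range W, Z.card <
        ∑ q ∈ Finset.range W, W * (Z.filter (fun z => (z 0 % (W : ℤ)).toNat = q)).card :=
      Finset.sum_lt_sum_of_nonempty ⟨0, Finset.mem_range.mpr (by omega)⟩ hcon
    rw [Finset.sum_const, Finset.card_range, smul_eq_mul] at h3
    omega
  have hqW : q < W := Finset.mem_range.mp hq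
  refine ⟨(Z.filter (fun z => (z 0 % (W : ℤ)).toNat = q)).image (fun z j => z (Fin.succ j)), ?_, ?_⟩
  · calc W * ((Z.filter (fun z => (z 0 % (W : ℤ)).toNat = q)).image (fun z j => z (Fin.succ j))).card
        ≤ W * (Z.filter (fun z => (z 0 % (W : ℤ)).toNat = q)).card :=
          Nat.mul_le_mul_left _ Finset.card_image_le
      _ ≤ Z.card := hqc
      _ ≤ _ := hZc
  intro V hV
  -- the direction
  set u : EuclideanSpace ℝ (Fin (d + 1)) :=
    WithLp.toLp 2 (Fin.cons (1 : ℝ) (fun j => (V j : ℝ) / W)) with hu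
  have hu0 : u 0 = 1 := by rw [hu]; rfl
  have huj : ∀ j : Fin d, u (Fin.succ j) = (V j : ℝ) / W := fun j => by rw [hu]; rfl
  have hnorm : ‖u‖ ^ 2 = 1 + ∑ j : Fin d, ((V j : ℝ) / W) ^ 2 := by
    rw [EuclideanSpace.norm_sq_eq, Fin.sum_univ_succ, hu0]
    simp only [huj, Real.norm_eq_abs, sq_abs, one_pow, abs_one]
  have hnorm1 : 1 ≤ ‖u‖ ^ 2 := by
    rw [hnorm]
    have : 0 ≤ ∑ j : Fin d, ((V j : ℝ) / W) ^ 2 := Finset.sum_nonneg fun j _ => sq_nonneg _
    linarith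
  have hnorm2 : ‖u‖ ^ 2 ≤ d + 1 := by
    rw [hnorm]
    have : ∑ j : Fin d, ((V j : ℝ) / W) ^ 2 ≤ ∑ _j : Fin d, (1 : ℝ) := by
      refine Finset.sum_le_sum fun j _ => ?_
      have h1 : (V j : ℝ) / W ≤ 1 := by
        rw [div_le_one (by linarith)]
        exact_mod_cast (hV j).le
      have h2 : 0 ≤ (V j : ℝ) / W := by positivity
      nlinarith
    rw [Finset.sum_const, Finset.card_univ, Fintype.card_fin, nsmul_eq_mul, mul_one] at this
    linarith
  have hρ1 : 1 ≤ ‖u‖ := by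
    by_contra h
    push Not at h
    nlinarith [norm_nonneg u]
  have hρ2 : ‖u‖ ≤ d + 1 := by nlinarith
  have hρ0 : 0 < ‖u‖ := by linarith
  obtain ⟨x, hx⟩ := hK (‖u‖⁻¹ • u) (by rw [norm_smul, norm_inv, norm_norm, inv_mul_cancel₀ hρ0.ne'])
  have hx' : ∀ t : ℝ, 0 ≤ t → t * (d + 1) ≤ 1 → x + t • u ∈ K := by
    intro t ht0 ht1
    have h1 := hx (t * ‖u‖) ⟨by positivity, by nlinarith⟩
    rw [smul_smul, mul_assoc, mul_inv_cancel₀ hρ0.ne', mul_one] at h1
    exact h1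
  -- the heights
  set h : ℤ := ⌈(κ * x 0 - q) / W⌉ with hh
  have hh1 : κ * x 0 - q ≤ W * h := by
    have h1 := Int.le_ceil ((κ * x 0 - q) / W)
    rw [div_le_iff₀ (by linarith)] at h1
    linarith
  have hh2 : W * h < κ * x 0 - q + W := by
    have h1 := Int.ceil_lt_add_one ((κ * x 0 - q) / W)
    rw [← sub_lt_iff_lt_add, lt_div_iff₀ (by linarith)] at h1
    linarith
  refine ⟨fun j => ⌊κ * x (Fin.succ j) + (q + W * h - κ * x 0) * ((V j : ℝ) / W)⌋, fun i hi => ?_⟩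
  set t : ℝ := (q + W * (h + i) - κ * x 0) / κ with ht
  have hκt : κ * t = q + W * (h + i) - κ * x 0 := by
    rw [ht]
    field_simp
  have hi' : (i : ℝ) + 1 ≤ w := by exact_mod_cast hi
  have hi0 : (0 : ℝ) ≤ i := Nat.cast_nonneg i
  have ht0 : 0 ≤ t := by
    refine div_nonneg ?_ hκ0.le
    have : 0 ≤ (W : ℝ) * i := by positivity
    linarith
  have ht1 : t * (d + 1) ≤ 1 := by
    have h1 : κ * t ≤ w * W := by
      rw [hκt]
      nlinarith
    have h2 : κ * t = (w * W) * (t * (d + 1)) := by rw [hκ]; ring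
    rw [h2] at h1
    have h3 : (0 : ℝ) < w * W := by positivity
    nlinarith
  have hp := hZ _ (hx' t ht0 ht1)
  refine Finset.mem_image.mpr ⟨_, Finset.mem_filter.mpr ⟨hp, ?_⟩, ?_⟩
  · -- the time coordinate
    have h1 : κ * (x + t • u) 0 = ((q + W * (h + i) : ℤ) : ℝ) := by
      have h2 : (x + t • u) 0 = x 0 + t * u 0 := rfl
      rw [h2, hu0, mul_one, mul_add, hκt]
      push_cast
      ring
    show (⌊κ * (x + t • u) 0⌋ % (W : ℤ)).toNat = q
    rw [h1, Int.floor_intCast, Int.add_mul_emod_self_left, Int.emod_eq_of_lt (by omega) (by omega)]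
    exact Int.toNat_natCast q
  · funext j
    show ⌊κ * (x + t • u) (Fin.succ j)⌋ = _
    have h2 : (x + t • u) (Fin.succ j) = x (Fin.succ j) + t * u (Fin.succ j) := rfl
    have h3 : κ * (x + t • u) (Fin.succ j) =
        (κ * x (Fin.succ j) + (q + W * h - κ * x 0) * ((V j : ℝ) / W)) + ((i * V j : ℤ) : ℝ) := by
      rw [h2, huj, mul_add]
      have h4 : κ * (t * ((V j : ℝ) / W)) = (κ * t) * ((V j : ℝ) / W) := by ring
      rw [h4, hκt]
      push_cast
      have h5 : (W : ℝ) * ((V j : ℝ) / W) = V j := by field_simp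
      have h6 : ((q : ℝ) + W * (h + i) - κ * x 0) * ((V j : ℝ) / W) =
          (q + W * h - κ * x 0) * ((V j : ℝ) / W) + i * (W * ((V j : ℝ) / W)) := by ring
      rw [h6, h5]
      ring
    rw [h3, Int.floor_add_intCast]

end Pool.Agent.SqLB
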