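import Pool.Agent.Lib.MP_071053_nt.Sq.Kak1
import Pool.Agent.Lib.MP_071053_nt.Sq.Kak2

/-! # Kakeya sets of small Minkowski dimension give small sets covering the first squares -/

set_option autoImplicit false

namespace Pool.Agent.SqLB

open Finset

/-- digits -/
theorem hasAP_of_lattice (d w W : ℕ) (E : Finset (Fin d → ℤ))
    (hE : ∀ V : Fin d → ℕ, (∀ j, V j < W) → ∃ a : Fin d → ℤ, ∀ i : ℕ, i < w →
        (fun j => a j + i * (V j : ℤ)) ∈ E) :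
    ∃ E' : Finset ℤ, E'.card ≤ E.card ∧ HasAP w (W ^ d) E' := by
  classical
  refine ⟨E.image (fun y : Fin d → ℤ => ∑ j : Fin d, y j * (W : ℤ) ^ (j : ℕ)), Finset.card_image_le, fun D hD => ?_⟩
  set f := (finFunctionFinEquiv (m := W) (n := d)).symm ⟨D, hD⟩ with hf
  have hfD : ∑ j : Fin d, (f j : ℕ) * W ^ (j : ℕ) = D := by
    have h1 : finFunctionFinEquiv f = ⟨D, hD⟩ := by rw [hf, Equiv.apply_symm_apply]
    have h2 := finFunctionFinEquiv_apply f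
    rw [h1] at h2
    exact h2.symm
  obtain ⟨a, ha⟩ := hE (fun j => (f j : ℕ)) (fun j => (f j).isLt)
  refine ⟨∑ j : Fin d, a j * (W : ℤ) ^ (j : ℕ), fun i hi => Finset.mem_image.mpr ⟨_, ha i hi, ?_⟩⟩
  have h3 : (D : ℤ) = ∑ j : Fin d, ((f j : ℕ) : ℤ) * (W : ℤ) ^ (j : ℕ) := by
    rw [← hfD]
    push_cast
    rfl
  rw [h3, Finset.mul_sum, ← Finset.sum_add_distrib]
  refine Finset.sum_congr rfl fun j _ => ?_
  ring

/-- the integer part of a root -/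
theorem exists_root (k : ℕ) (hk : 1 ≤ k) (w₀ : ℕ) (y : ℝ) (hy : (w₀ : ℝ) ^ k ≤ y) :
    ∃ w : ℕ, w₀ ≤ w ∧ (w : ℝ) ^ k ≤ y ∧ y < ((w : ℝ) + 1) ^ k := by
  have hk0 : (k : ℝ) ≠ 0 := by exact_mod_cast (by omega : k ≠ 0)
  have hy0 : 0 ≤ y := le_trans (by positivity) hy
  have hz0 : 0 ≤ y ^ ((1 : ℝ) / k) := Real.rpow_nonneg hy0 _
  have hzk : (y ^ ((1 : ℝ) / k)) ^ k = y := by
    rw [← Real.rpow_natCast, ← Real.rpow_mul hy0, one_div, inv_mul_cancel₀ hk0, Real.rpow_one]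
  refine ⟨⌊y ^ ((1 : ℝ) / k)⌋₊, ?_, ?_, ?_⟩
  · refine Nat.le_floor ?_
    refine le_of_pow_le_pow_left₀ (by omega : k ≠ 0) hz0 ?_
    rw [hzk]
    exact hy
  · calc ((⌊y ^ ((1 : ℝ) / k)⌋₊ : ℕ) : ℝ) ^ k ≤ (y ^ ((1 : ℝ) / k)) ^ k :=
          pow_le_pow_left₀ (Nat.cast_nonneg _) (Nat.floor_le hz0) k
      _ = y := hzk
  · calc y = (y ^ ((1 : ℝ) / k)) ^ k := hzk.symm
      _ < ((⌊y ^ ((1 : ℝ) / k)⌋₊ : ℝ) + 1) ^ k :=
          pow_lt_pow_left₀ (Nat.lt_floor_add_one _) hz0 (by omega : k ≠ 0)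

/-- the main theorem -/
theorem kakeya_cover (d : ℕ) (hd : 1 ≤ d) (K : Set (EuclideanSpace ℝ (Fin (d + 1))))
    (hK : ∀ v : EuclideanSpace ℝ (Fin (d + 1)), ‖v‖ = 1 → ∃ x, ∀ t ∈ Set.Icc (0 : ℝ) 1, x + t • v ∈ K)
    (ε : ℝ) (hε : 0 < ε) (hε1 : ε ≤ d + 1)
    (hcov : ∀ δ₀ : ℝ, 0 < δ₀ → ∃ δ : ℝ, 0 < δ ∧ δ < δ₀ ∧ ∃ s : Finset (EuclideanSpace ℝ (Fin (d + 1))),
      K ⊆ ⋃ x ∈ s, Metric.closedBall x δ ∧ (s.card : ℝ) ≤ δ ^ (-((d : ℝ) + 1 - ε))) :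
    ∀ N : ℕ, ∃ n : ℕ, N ≤ n ∧ ∃ A : Finset ℕ,
      (∀ k : ℕ, 1 ≤ k → k ≤ n → ∃ a ∈ A, ∃ b ∈ A, a + b = k ^ 2) ∧
      (A.card : ℝ) ≤ (n : ℝ) ^ (1 - ε / (d * (d + 3))) := by
  intro N
  have hd' : (1 : ℝ) ≤ d := by exact_mod_cast hd
  -- the number of scales
  obtain ⟨s₀, hs1, hs2, hs3⟩ : ∃ s₀ : ℕ, 1 ≤ s₀ ∧ ((d : ℝ) + 3) / ε ≤ s₀ + 1 ∧ (s₀ : ℝ) < ((d : ℝ) + 3) / ε := by
    have h1 : 1 < ((d : ℝ) + 3) / ε := by rw [lt_div_iff₀ hε]; linarith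
    have h2 := Nat.le_ceil (((d : ℝ) + 3) / ε)
    have h3 := Nat.ceil_lt_add_one (by linarith : 0 ≤ ((d : ℝ) + 3) / ε)
    have h4 : 2 ≤ ⌈((d : ℝ) + 3) / ε⌉₊ := by
      have h5 : (1 : ℝ) < ⌈((d : ℝ) + 3) / ε⌉₊ := lt_of_lt_of_le h1 h2
      have h6 : 1 < ⌈((d : ℝ) + 3) / ε⌉₊ := by exact_mod_cast h5
      omega
    refine ⟨⌈((d : ℝ) + 3) / ε⌉₊ - 1, by omega, ?_, ?_⟩
    · rw [Nat.cast_sub (by omega)]
      push_cast
      linarith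
    · rw [Nat.cast_sub (by omega)]
      push_cast
      linarith
  rw [div_le_iff₀ hε] at hs2
  rw [lt_div_iff₀ hε] at hs3
  set M : ℕ := s₀ * d with hM
  have hM1 : 1 ≤ M := Nat.mul_pos hs1 hd
  set θ : ℝ := (d : ℝ) + 1 - ε with hθ
  have hθ0 : 0 ≤ θ := by linarith
  set C : ℝ := 3 ^ (d + 1) * (((d : ℝ) + 1) * 2 ^ (s₀ + 1)) ^ θ with hC
  have hC0 : 0 ≤ C := by positivity
  set η : ℝ := ε / (d * (d + 3)) with hη
  have hη0 : 0 < η := by positivity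
  have hMη : (M : ℝ) * η < 1 := by
    rw [hM, hη]
    push_cast
    have : (s₀ : ℝ) * d * (ε / (d * (d + 3))) = s₀ * ε / (d + 3) := by
      field_simp
    rw [this, div_lt_one (by linarith)]
    exact hs3
  -- the size of w
  obtain ⟨w₁, hw₁⟩ : ∃ w₁ : ℕ, ∀ w : ℕ, w₁ ≤ w → 1 + 20 * C ≤ (w : ℝ) ^ (1 - M * η) := by
    have h1 := (tendsto_rpow_atTop (by linarith : 0 < 1 - (M : ℝ) * η)).comp tendsto_natCast_atTop_atTop
    have h2 := (h1.eventually_ge_atTop (1 + 20 * C)).exists_forall_of_atTop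
    exact h2
  set w₀ : ℕ := max w₁ (2 * N + 4) with hw₀
  have hw₀1 : (1 : ℝ) ≤ w₀ := by
    have : 1 ≤ w₀ := le_trans (by omega) (le_max_right w₁ (2 * N + 4))
    exact_mod_cast this
  obtain ⟨δ, hδ0, hδ1, s, hs, hsc⟩ := hcov (1 / (((d : ℝ) + 1) * (w₀ : ℝ) ^ (s₀ + 1))) (by positivity)
  obtain ⟨w, hw, hwy, hyw⟩ := exists_root (s₀ + 1) (by omega) w₀ (1 / (((d : ℝ) + 1) * δ)) (by
    rw [le_div_iff₀ (by positivity)]
    rw [lt_div_iff₀ (by positivity)] at hδ1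
    nlinarith)
  have hww₁ : w₁ ≤ w := (le_max_left _ _).trans hw
  have hwN : 2 * N + 4 ≤ w := (le_max_right _ _).trans hw
  have hw' : (4 : ℝ) ≤ w := by exact_mod_cast (by omega : 4 ≤ w)
  have hw0 : (0 : ℝ) < w := by linarith
  obtain ⟨E, hEc, hE⟩ := exists_lattice d w (w ^ s₀) (by omega) (Nat.one_le_pow _ _ (by omega)) K hK δ (by
    rw [le_div_iff₀ (by positivity)] at hwy
    push_cast
    have : (w : ℝ) * (w : ℝ) ^ s₀ * ((d : ℝ) + 1) * δ = (w : ℝ) ^ (s₀ + 1) * (((d : ℝ) + 1) * δ) := by ring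
    rw [this]
    exact hwy) s hs
  obtain ⟨E', hE'c, hE'⟩ := hasAP_of_lattice d w (w ^ s₀) E hE
  rw [← pow_mul, ← hM] at hE'
  set n : ℕ := (w ^ M - 1) / 2 with hn
  have hwM : w ≤ w ^ M := Nat.le_self_pow (by omega) w
  have hn2 : 2 * n + 1 ≤ w ^ M := by omega
  have hnN : N ≤ n := by omega
  have hn1 : 1 ≤ n := by omega
  have hn4 : w ^ M ≤ 4 * n := by omega
  obtain ⟨A, hA, hAc⟩ := cover_of_hasAP w n (by omega) hn1 E' (fun D hD => hE' D (by omega))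
  refine ⟨n, hnN, A, hA, ?_⟩
  -- the number of balls
  have hδinv : δ⁻¹ ≤ ((d : ℝ) + 1) * 2 ^ (s₀ + 1) * (w : ℝ) ^ (s₀ + 1) := by
    rw [div_lt_iff₀ (by positivity)] at hyw
    have h1 : ((w : ℝ) + 1) ^ (s₀ + 1) ≤ (2 * w) ^ (s₀ + 1) := pow_le_pow_left₀ (by positivity) (by linarith) _
    rw [mul_pow] at h1
    rw [inv_le_iff_one_le_mul₀ hδ0]
    have h2 : ((w : ℝ) + 1) ^ (s₀ + 1) * (((d : ℝ) + 1) * δ) ≤
        (2 ^ (s₀ + 1) * (w : ℝ) ^ (s₀ + 1)) * (((d : ℝ) + 1) * δ) :=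
      mul_le_mul_of_nonneg_right h1 (by positivity)
    nlinarith
  have hsc2 : (s.card : ℝ) ≤ (((d : ℝ) + 1) * 2 ^ (s₀ + 1)) ^ θ * (w : ℝ) ^ (((s₀ : ℝ) + 1) * θ) := by
    have h1 : δ ^ (-θ) = (δ⁻¹) ^ θ := by
      rw [Real.rpow_neg hδ0.le, Real.inv_rpow hδ0.le]
    rw [h1] at hsc
    refine hsc.trans ?_
    have h2 : (δ⁻¹) ^ θ ≤ (((d : ℝ) + 1) * 2 ^ (s₀ + 1) * (w : ℝ) ^ (s₀ + 1)) ^ θ :=
      Real.rpow_le_rpow (by positivity) hδinv hθ0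
    refine h2.trans ?_
    rw [Real.mul_rpow (by positivity) (by positivity)]
    have h3 : ((w : ℝ) ^ (s₀ + 1)) ^ θ = (w : ℝ) ^ (((s₀ : ℝ) + 1) * θ) := by
      rw [← Real.rpow_natCast, ← Real.rpow_mul hw0.le]
      push_cast
      rfl
    rw [h3]
  have hEc2 : (E.card : ℝ) ≤ C * (w : ℝ) ^ ((M : ℝ) - 2) := by
    have h1 : ((w : ℝ) ^ s₀) * E.card ≤ 3 ^ (d + 1) * s.card := by exact_mod_cast hEc
    have h2 : (w : ℝ) ^ (((s₀ : ℝ) + 1) * θ) ≤ (w : ℝ) ^ ((M : ℝ) - 2) * (w : ℝ) ^ s₀ := by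
      rw [← Real.rpow_natCast, ← Real.rpow_add hw0]
      refine Real.rpow_le_rpow_of_exponent_le (by linarith) ?_
      rw [hM, hθ]
      push_cast
      nlinarith
    have h3 : (0 : ℝ) < (w : ℝ) ^ s₀ := by positivity
    refine le_of_mul_le_mul_left ?_ h3
    calc ((w : ℝ) ^ s₀) * E.card ≤ 3 ^ (d + 1) * s.card := h1
      _ ≤ 3 ^ (d + 1) * ((((d : ℝ) + 1) * 2 ^ (s₀ + 1)) ^ θ * (w : ℝ) ^ (((s₀ : ℝ) + 1) * θ)) :=
          mul_le_mul_of_nonneg_left hsc2 (by positivity)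
      _ = C * (w : ℝ) ^ (((s₀ : ℝ) + 1) * θ) := by rw [hC]; ring
      _ ≤ C * ((w : ℝ) ^ ((M : ℝ) - 2) * (w : ℝ) ^ s₀) := mul_le_mul_of_nonneg_left h2 hC0
      _ = (w : ℝ) ^ s₀ * (C * (w : ℝ) ^ ((M : ℝ) - 2)) := by ring
  have hn0 : (0 : ℝ) < n := by exact_mod_cast hn1
  have hAc2 : (A.card : ℝ) ≤ (1 + 20 * C) * (n / w) := by
    have h1 : (A.card : ℝ) ≤ ((n / w : ℕ) : ℝ) + 5 * w * E'.card := by exact_mod_cast hAc
    have h2 : ((n / w : ℕ) : ℝ) ≤ n / w := Nat.cast_div_le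
    have h3 : (E'.card : ℝ) ≤ C * (w : ℝ) ^ ((M : ℝ) - 2) := le_trans (by exact_mod_cast hE'c) hEc2
    have h4 : (w : ℝ) * (w : ℝ) ^ ((M : ℝ) - 2) ≤ 4 * (n / w) := by
      have h5 : (w : ℝ) * ((w : ℝ) * (w : ℝ) ^ ((M : ℝ) - 2)) = (w : ℝ) ^ M := by
        rw [← mul_assoc, ← sq, ← Real.rpow_natCast w 2, ← Real.rpow_add hw0]
        push_cast
        rw [show (2 : ℝ) + ((M : ℝ) - 2) = M by ring, Real.rpow_natCast]
      have h6 : (w : ℝ) ^ M ≤ 4 * n := by exact_mod_cast hn4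
      rw [← h5] at h6
      rw [mul_div_assoc', le_div_iff₀ hw0]
      linarith
    have h7 : 5 * (w : ℝ) * E'.card ≤ 20 * C * (n / w) := by
      calc 5 * (w : ℝ) * E'.card ≤ 5 * w * (C * (w : ℝ) ^ ((M : ℝ) - 2)) :=
            mul_le_mul_of_nonneg_left h3 (by positivity)
        _ = 5 * C * (w * (w : ℝ) ^ ((M : ℝ) - 2)) := by ring
        _ ≤ 5 * C * (4 * (n / w)) := mul_le_mul_of_nonneg_left h4 (by positivity)
        _ = 20 * C * (n / w) := by ring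
    linarith
  refine hAc2.trans ?_
  -- comparison with the power of n
  have h1 : (n : ℝ) ^ η ≤ (w : ℝ) ^ ((M : ℝ) * η) := by
    have h2 : (n : ℝ) ≤ (w : ℝ) ^ M := by exact_mod_cast (by omega : n ≤ w ^ M)
    calc (n : ℝ) ^ η ≤ ((w : ℝ) ^ M) ^ η := Real.rpow_le_rpow hn0.le h2 hη0.le
      _ = (w : ℝ) ^ ((M : ℝ) * η) := by rw [← Real.rpow_natCast, ← Real.rpow_mul hw0.le]
  have h2 : (1 + 20 * C) * (n : ℝ) ^ η ≤ w := by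
    calc (1 + 20 * C) * (n : ℝ) ^ η ≤ (w : ℝ) ^ (1 - (M : ℝ) * η) * (w : ℝ) ^ ((M : ℝ) * η) :=
          mul_le_mul (hw₁ w hww₁) h1 (by positivity) (by positivity)
      _ = w := by
          rw [← Real.rpow_add hw0]
          simp
  have h3 : (n : ℝ) ^ (1 - η) = n / (n : ℝ) ^ η := by rw [Real.rpow_sub hn0, Real.rpow_one]
  rw [h3, le_div_iff₀ (by positivity)]
  calc (1 + 20 * C) * (n / w) * (n : ℝ) ^ η = ((1 + 20 * C) * (n : ℝ) ^ η) * (n / w) := by ring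
    _ ≤ w * (n / w) := mul_le_mul_of_nonneg_right h2 (by positivity)
    _ = n := by field_simp

end Pool.Agent.SqLB
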