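import Pool.Agent.Lib.MP_071053_nt.Sq.Pairs

/-! # The uniform pairs bound and the lower bound for covering sets -/

set_option autoImplicit false

namespace Pool.Agent.SqLB

open Finset Real

/-- symmetry -/
theorem SqP_comm (A B : Finset ℤ) : (SqP A B).card = (SqP B A).card := by
  classical
  refine Finset.card_bij (fun x _ => (x.2, x.1)) ?_ ?_ ?_
  · intro x hx
    obtain ⟨h1, k, hk, h2⟩ := Finset.mem_filter.mp hx
    obtain ⟨h3, h4⟩ := Finset.mem_product.mp h1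
    exact Finset.mem_filter.mpr ⟨Finset.mem_product.mpr ⟨h4, h3⟩, k, hk, by rw [← h2]; exact add_comm _ _⟩
  · intro x _ y _ h
    exact Prod.ext (congrArg Prod.snd h) (congrArg Prod.fst h)
  · intro y hy
    obtain ⟨h1, k, hk, h2⟩ := Finset.mem_filter.mp hy
    obtain ⟨h3, h4⟩ := Finset.mem_product.mp h1
    exact ⟨(y.2, y.1), Finset.mem_filter.mpr ⟨Finset.mem_product.mpr ⟨h4, h3⟩, k, hk, by
      rw [← h2]; exact add_comm _ _⟩, rfl⟩

theorem log2X (X : ℕ) (hX : 2 ≤ X) : Real.log (2 * X) ≤ 2 * Real.log X := by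
  have hX' : (2 : ℝ) ≤ X := by exact_mod_cast hX
  have h : (2 * X : ℝ) ≤ X ^ 2 := by nlinarith
  have h8 := Real.log_le_log (by positivity) h
  rw [Real.log_pow] at h8
  exact_mod_cast h8

/-- the bound in general -/
theorem pairs_all (X : ℕ) (hX : 2 ≤ X) (A B : Finset ℤ) (hA : ∀ a ∈ A, |a| ≤ X) (hB : ∀ b ∈ B, |b| ≤ X) :
    ((SqP A B).card : ℝ) ≤ 6000000000 * ((A.card * Real.sqrt B.card + B.card * Real.sqrt A.card) * Real.log X) := by
  have hX' : (2 : ℝ) ≤ X := by exact_mod_cast hX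
  have hlog : 0 ≤ Real.log X := Real.log_nonneg (by linarith)
  have hl2 := log2X X hX
  rcases Nat.eq_zero_or_pos B.card with hB0 | hB1
  · have : (SqP A B).card = 0 := by
      rw [Finset.card_eq_zero] at hB0 ⊢
      rw [hB0]
      simp [SqP]
    rw [this, Nat.cast_zero]
    exact mul_nonneg (by norm_num) (mul_nonneg (by positivity) hlog)
  rcases Nat.eq_zero_or_pos A.card with hA0 | hA1
  · have : (SqP A B).card = 0 := by
      rw [Finset.card_eq_zero] at hA0 ⊢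
      rw [hA0]
      simp [SqP]
    rw [this, Nat.cast_zero]
    exact mul_nonneg (by norm_num) (mul_nonneg (by positivity) hlog)
  have hsA : 0 ≤ (A.card : ℝ) * Real.sqrt B.card := by positivity
  have hsB : 0 ≤ (B.card : ℝ) * Real.sqrt A.card := by positivity
  rcases le_total B.card A.card with h | h
  · have h1 := pairs_le X hX A B hA hB h hB1
    have h2 := mul_le_mul_of_nonneg_left hl2 hsA
    nlinarith [mul_nonneg hsB hlog]
  · have h1 := pairs_le X hX B A hB hA h hA1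
    rw [SqP_comm]
    have h2 := mul_le_mul_of_nonneg_left hl2 hsB
    nlinarith [mul_nonneg hsA hlog]

/-- a set which covers the first `n` squares -/
theorem cover_ge (n : ℕ) (hn : 2 ≤ n) (A : Finset ℕ)
    (hA : ∀ k : ℕ, 1 ≤ k → k ≤ n → ∃ a ∈ A, ∃ b ∈ A, a + b = k ^ 2) :
    (n : ℝ) ≤ 24000000000 * ((A.card : ℝ) * Real.sqrt A.card * Real.log n) := by
  classical
  have hn' : (2 : ℝ) ≤ n := by exact_mod_cast hn
  let A0 : Finset ℕ := A.filter (fun a => a ≤ n ^ 2)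
  let A' : Finset ℤ := A0.image (fun a : ℕ => (a : ℤ))
  have hcard : A'.card ≤ A.card := Finset.card_image_le.trans (Finset.card_filter_le _ _)
  have hX : 2 ≤ n ^ 2 := by nlinarith
  have hbd : ∀ a ∈ A', |a| ≤ ((n ^ 2 : ℕ) : ℤ) := by
    intro a ha
    obtain ⟨x, hx, rfl⟩ := Finset.mem_image.mp ha
    rw [abs_of_nonneg (Int.natCast_nonneg x)]
    exact_mod_cast (Finset.mem_filter.mp hx).2
  have h1 := pairs_all (n ^ 2) hX A' A' hbd hbd
  have hn1 : n ≤ (SqP A' A').card := by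
    have hch : ∀ k ∈ Finset.Icc 1 n, ∃ x ∈ SqP A' A', x.1 + x.2 = ((k : ℤ)) ^ 2 := by
      intro k hk
      obtain ⟨hk1, hk2⟩ := Finset.mem_Icc.mp hk
      obtain ⟨a, ha, b, hb, hab⟩ := hA k hk1 hk2
      have hkn : k ^ 2 ≤ n ^ 2 := Nat.pow_le_pow_left hk2 2
      have ha' : (a : ℤ) ∈ A' := Finset.mem_image.mpr ⟨a, Finset.mem_filter.mpr ⟨ha, by omega⟩, rfl⟩
      have hb' : (b : ℤ) ∈ A' := Finset.mem_image.mpr ⟨b, Finset.mem_filter.mpr ⟨hb, by omega⟩, rfl⟩
      have e : (a : ℤ) + b = (k : ℤ) ^ 2 := by exact_mod_cast hab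
      refine ⟨((a : ℤ), (b : ℤ)), Finset.mem_filter.mpr ⟨Finset.mem_product.mpr ⟨ha', hb'⟩, (k : ℤ), ?_, e⟩, e⟩
      have : 0 < k := hk1
      exact_mod_cast this.ne'
    choose! f hf1 hf2 using hch
    have hinj : Set.InjOn f (Finset.Icc 1 n : Finset ℕ) := by
      intro k hk l hl h
      have e1 := hf2 k hk
      have e2 := hf2 l hl
      rw [h, e2] at e1
      have e3 : (l : ℤ) ^ 2 = (k : ℤ) ^ 2 := e1
      have e4 : l ^ 2 = k ^ 2 := by exact_mod_cast e3
      exact (Nat.pow_left_injective (n := 2) (by norm_num) e4).symm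
    have h2 := Finset.card_le_card_of_injOn f (fun k hk => hf1 k hk) hinj
    rwa [Nat.card_Icc, Nat.add_sub_cancel] at h2
  have hn1' : (n : ℝ) ≤ ((SqP A' A').card : ℝ) := by exact_mod_cast hn1
  have hlogn : Real.log ((n ^ 2 : ℕ) : ℝ) = 2 * Real.log n := by
    rw [Nat.cast_pow, Real.log_pow]; norm_num
  rw [hlogn] at h1
  have hc : (A'.card : ℝ) ≤ A.card := by exact_mod_cast hcard
  have hmul : (A'.card : ℝ) * Real.sqrt A'.card ≤ A.card * Real.sqrt A.card :=
    mul_le_mul hc (Real.sqrt_le_sqrt hc) (Real.sqrt_nonneg _) (Nat.cast_nonneg _)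
  have hlog : 0 ≤ Real.log n := Real.log_nonneg (by linarith)
  have h3 := mul_le_mul_of_nonneg_right hmul hlog
  linarith

/-- the lower bound -/
theorem cover_lower : ∃ c : ℝ, 0 < c ∧ ∀ n : ℕ, 2 ≤ n → ∀ A : Finset ℕ,
    (∀ k : ℕ, 1 ≤ k → k ≤ n → ∃ a ∈ A, ∃ b ∈ A, a + b = k ^ 2) →
      c * ((n : ℝ) / Real.log n) ^ ((2 : ℝ) / 3) ≤ A.card := by
  refine ⟨(1 / 24000000000 : ℝ) ^ ((2 : ℝ) / 3), by positivity, fun n hn A hA => ?_⟩
  have hn' : (2 : ℝ) ≤ n := by exact_mod_cast hn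
  have hlog : 0 < Real.log n := Real.log_pos (by linarith)
  have h1 := cover_ge n hn A hA
  have hc : (0 : ℝ) ≤ A.card := Nat.cast_nonneg _
  have h2 : (1 / 24000000000 : ℝ) * ((n : ℝ) / Real.log n) ≤ (A.card : ℝ) ^ ((3 : ℝ) / 2) := by
    have e : (A.card : ℝ) ^ ((3 : ℝ) / 2) = A.card * Real.sqrt A.card := by
      rw [Real.sqrt_eq_rpow, show ((3 : ℝ) / 2) = 1 + 1 / 2 by norm_num]
      rcases hc.eq_or_lt with h0 | h0
      · rw [← h0, zero_mul, Real.zero_rpow (by norm_num)]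
      · rw [Real.rpow_add h0, Real.rpow_one]
    rw [e, ← mul_div_assoc, div_le_iff₀ hlog]
    linarith
  rw [← Real.mul_rpow (by positivity) (by positivity)]
  calc ((1 / 24000000000 : ℝ) * ((n : ℝ) / Real.log n)) ^ ((2 : ℝ) / 3)
      ≤ ((A.card : ℝ) ^ ((3 : ℝ) / 2)) ^ ((2 : ℝ) / 3) := Real.rpow_le_rpow (by positivity) h2 (by norm_num)
    _ = A.card := by
        rw [← Real.rpow_mul hc]
        norm_num

end Pool.Agent.SqLB
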