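import Pool.Agent.Lib.MP_071053_nt.Sq.Prm

/-! # Pairs with sum a nonzero square, and the lower bound for covering sets -/

set_option autoImplicit false

namespace Pool.Agent.SqLB

open Finset Real

theorem num1 (s a b sb O : ℝ) (hs : 0 < s) (hba : b ≤ a) (hb1 : 1 ≤ b) (hsb2 : sb ^ 2 = b) (hsb1 : 1 ≤ sb)
    (hO0 : 0 ≤ O) (hOs1 : O * sb ≤ s) :
    Real.sqrt (s ^ 2 * a + O ^ 2 * a ^ 2) * Real.sqrt (s ^ 2 * b + O ^ 2 * b ^ 2) ≤ 2 * (s ^ 2 * a) := by
  have hsbpos : 0 < sb := by linarith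
  have hbpos : 0 < b := by linarith
  have hapos : 0 < a := by linarith
  have hq : (O * sb) ^ 2 ≤ s ^ 2 := pow_le_pow_left₀ (by positivity) hOs1 2
  have hq' : O ^ 2 * b ≤ s ^ 2 := by rw [← hsb2, ← mul_pow]; exact hq
  have hr2 : s ^ 2 * b + O ^ 2 * b ^ 2 ≤ 2 * (s ^ 2 * b) := by
    have : O ^ 2 * b * b ≤ s ^ 2 * b := mul_le_mul_of_nonneg_right hq' hbpos.le
    nlinarith
  have hr1 : (s ^ 2 * a + O ^ 2 * a ^ 2) * b ≤ 2 * (s ^ 2 * a ^ 2) := by
    have h1 : O ^ 2 * b * a ^ 2 ≤ s ^ 2 * a ^ 2 := mul_le_mul_of_nonneg_right hq' (by positivity)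
    have h2 : s ^ 2 * a * b ≤ s ^ 2 * a * a := mul_le_mul_of_nonneg_left hba (by positivity)
    nlinarith
  rw [← Real.sqrt_mul (by positivity)]
  apply Real.sqrt_le_iff.mpr
  refine ⟨by positivity, ?_⟩
  calc (s ^ 2 * a + O ^ 2 * a ^ 2) * (s ^ 2 * b + O ^ 2 * b ^ 2)
      ≤ (s ^ 2 * a + O ^ 2 * a ^ 2) * (2 * (s ^ 2 * b)) := mul_le_mul_of_nonneg_left hr2 (by positivity)
    _ = 2 * s ^ 2 * ((s ^ 2 * a + O ^ 2 * a ^ 2) * b) := by ring
    _ ≤ 2 * s ^ 2 * (2 * (s ^ 2 * a ^ 2)) := mul_le_mul_of_nonneg_left hr1 (by positivity)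
    _ = (2 * (s ^ 2 * a)) ^ 2 := by ring

theorem num2 (N s a b P w : ℝ) (hs : 0 < s) (hP : 0 ≤ P)
    (h : N * (s / 2) ^ 2 ≤ s * (a * b) + 6 * P * w) (hw : w ≤ 2 * (s ^ 2 * a)) :
    N * s ≤ 4 * (a * b) + 48 * (P * (s * a)) := by
  have h1 := mul_le_mul_of_nonneg_left hw (by positivity : (0 : ℝ) ≤ 6 * P)
  have h6 : (N * s) * s ≤ (4 * (a * b) + 48 * (P * (s * a))) * s := by nlinarith
  exact le_of_mul_le_mul_right h6 hs

theorem num3 (N s a b sb P L l : ℝ) (hs : 0 < s) (ha : 1 ≤ a) (hsb2 : sb ^ 2 = b) (hsb1 : 1 ≤ sb) (hL : 1 ≤ L)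
    (h1 : N * s ≤ 4 * (a * b) + 48 * (P * (s * a))) (h2 : P ≤ s * (2 * l)) (h3 : l ≤ 60 * L)
    (h4 : 25000000 * (sb * L) ≤ P) (h5 : P ≤ 2 * (25000000 * (sb * L))) :
    N ≤ 3000000000 * (a * sb * L) := by
  have hLpos : 0 < L := by linarith
  have e1 : 25000000 * sb * L ≤ 120 * s * L := by
    have := mul_le_mul_of_nonneg_left h3 (by positivity : 0 ≤ s * 2)
    nlinarith
  have e2 : 200000 * sb ≤ s := by
    have := le_of_mul_le_mul_right e1 hLpos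
    linarith
  have hasb : 0 ≤ a * sb := by positivity
  have e3 : 4 * (a * b) ≤ s * (a * sb) := by
    rw [← hsb2]
    have := mul_le_mul_of_nonneg_left e2 hasb
    nlinarith
  have e4 : N * s ≤ (a * sb + 48 * (P * a)) * s := by nlinarith
  have e5 : N ≤ a * sb + 48 * (P * a) := le_of_mul_le_mul_right e4 hs
  have e6 : P * a ≤ 2 * (25000000 * (sb * L)) * a := mul_le_mul_of_nonneg_right h5 (by linarith)
  have e7 : a * sb ≤ a * sb * L := le_mul_of_one_le_right hasb hL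
  nlinarith

theorem log_b (X : ℕ) (hX : 2 ≤ X) (B : Finset ℤ) (hB : ∀ b ∈ B, |b| ≤ X) (hB1 : 1 ≤ B.card) :
    Real.log B.card ≤ 2 * Real.log (2 * X) := by
  have hX' : (2 : ℝ) ≤ X := by exact_mod_cast hX
  have h1 : B ⊆ Finset.Icc (-(X : ℤ)) X := by
    intro x hx
    rw [Finset.mem_Icc]
    exact abs_le.mp (hB x hx)
  have h2 := Finset.card_le_card h1
  rw [Int.card_Icc] at h2
  have h3 : B.card ≤ 2 * X + 1 := by
    have : ((X : ℤ) + 1 - -(X : ℤ)).toNat = 2 * X + 1 := by omega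
    omega
  have h4 : (B.card : ℝ) ≤ 2 * X + 1 := by exact_mod_cast h3
  have hbX : (B.card : ℝ) ≤ (2 * X) ^ 2 := by nlinarith
  have h5 := Real.log_le_log (by exact_mod_cast hB1) hbX
  rw [Real.log_pow] at h5
  exact_mod_cast h5

theorem log_P (sb L y : ℝ) (P : ℕ) (hsb1 : 1 ≤ sb) (hL : 1 ≤ L) (hlsb : Real.log sb ≤ L) (hy : y = 25000000 * (sb * L))
    (hP1 : 1 ≤ (P : ℝ)) (hPy : (P : ℝ) ≤ 2 * y) : Real.log P ≤ 60 * L := by
  have hsbpos : 0 < sb := by linarith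
  have hLpos : 0 < L := by linarith
  have h1 : Real.log P ≤ Real.log (50000000 * (sb * L)) := by
    apply Real.log_le_log (by linarith)
    calc (P : ℝ) ≤ 2 * y := hPy
      _ = 50000000 * (sb * L) := by rw [hy]; ring
  rw [Real.log_mul (by norm_num) (by positivity), Real.log_mul (by positivity) (by positivity)] at h1
  have h3 : Real.log L ≤ L := by
    have := Real.log_le_sub_one_of_pos hLpos
    linarith
  have h4 : Real.log 50000000 ≤ 50 := by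
    have e : Real.log 50000000 ≤ Real.log (2 ^ 50) := Real.log_le_log (by norm_num) (by norm_num)
    rw [Real.log_pow] at e
    have l2' := Real.log_two_lt_d9
    push_cast at e
    linarith
  linarith

theorem diff_bound (P X : ℕ) (hP : 2 ≤ P) (C : Finset ℤ) (hC : ∀ c ∈ C, |c| ≤ X) (u : ℤ) (hu : u ∈ C) (v : ℤ)
    (hv : v ∈ C) (huv : u ≠ v) : ∑ p ∈ Pr P, dl p u v ≤ Real.log (2 * X) / Real.log P := by
  refine dl_sum P hP u v (2 * X) huv ?_
  have h1 : |u - v| ≤ 2 * X := by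
    calc |u - v| ≤ |u| + |v| := abs_sub _ _
      _ ≤ X + X := add_le_add (hC u hu) (hC v hv)
      _ = 2 * X := by ring
  have h2 : ((|u - v| : ℤ) : ℝ) ≤ ((2 * X : ℤ) : ℝ) := by exact_mod_cast h1
  rw [Int.cast_abs] at h2
  exact_mod_cast h2

theorem root_bound (P X : ℕ) (hP : 2 ≤ P) (u v k : ℤ) (hu : |u| ≤ X) (hv : |v| ≤ X) (hk0 : k ≠ 0)
    (hk : u + v = k ^ 2) : ∑ p ∈ Pr P, dl p k 0 ≤ Real.log (2 * X) / Real.log P := by
  refine dl_sum P hP k 0 (2 * X) hk0 ?_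
  have h1 : |k| ≤ 2 * X := by
    have e1 : k ^ 2 ≤ 2 * X := by
      rw [← hk]
      have := (abs_le.mp hu).2
      have := (abs_le.mp hv).2
      linarith
    have e2 : |k| ≤ k ^ 2 := by
      rw [← sq_abs]
      have : 1 ≤ |k| := Int.one_le_abs hk0
      nlinarith
    linarith
  have h2 : ((|k - 0| : ℤ) : ℝ) ≤ ((2 * X : ℤ) : ℝ) := by rw [sub_zero]; exact_mod_cast h1
  rw [Int.cast_abs] at h2
  exact_mod_cast h2

/-- the pairs bound if `B` is not larger than `A` -/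
theorem pairs_le (X : ℕ) (hX : 2 ≤ X) (A B : Finset ℤ) (hA : ∀ a ∈ A, |a| ≤ X) (hB : ∀ b ∈ B, |b| ≤ X)
    (hBA : B.card ≤ A.card) (hB1 : 1 ≤ B.card) :
    ((SqP A B).card : ℝ) ≤ 3000000000 * (A.card * Real.sqrt B.card * Real.log (2 * X)) := by
  obtain ⟨a, ha⟩ : ∃ a : ℝ, a = (A.card : ℝ) := ⟨_, rfl⟩
  obtain ⟨b, hb⟩ : ∃ b : ℝ, b = (B.card : ℝ) := ⟨_, rfl⟩
  obtain ⟨L, hL⟩ : ∃ L : ℝ, L = Real.log (2 * X) := ⟨_, rfl⟩
  obtain ⟨sb, hsb⟩ : ∃ sb : ℝ, sb = Real.sqrt b := ⟨_, rfl⟩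
  have hX' : (2 : ℝ) ≤ X := by exact_mod_cast hX
  have hba : b ≤ a := by rw [ha, hb]; exact_mod_cast hBA
  have hb1 : 1 ≤ b := by rw [hb]; exact_mod_cast hB1
  have ha1 : 1 ≤ a := hb1.trans hba
  have l2 := Real.log_two_gt_d9
  have hL1 : 1 ≤ L := by
    have h1 : Real.log 4 ≤ L := by rw [hL]; exact Real.log_le_log (by norm_num) (by linarith)
    have l4 : Real.log 4 = 2 * Real.log 2 := by
      rw [show (4 : ℝ) = 2 ^ 2 by norm_num, Real.log_pow]; norm_num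
    linarith
  have hsb2 : sb ^ 2 = b := by rw [hsb]; exact Real.sq_sqrt (by linarith)
  have hsb1 : 1 ≤ sb := by rw [hsb]; exact Real.one_le_sqrt.mpr hb1
  obtain ⟨y, hy⟩ : ∃ y : ℝ, y = 25000000 * (sb * L) := ⟨_, rfl⟩
  have hsL : 1 ≤ sb * L := by nlinarith
  have hy1 : 25000000 ≤ y := by rw [hy]; linarith
  obtain ⟨P, hP⟩ : ∃ P : ℕ, P = ⌈y⌉₊ := ⟨_, rfl⟩
  have hyP : y ≤ P := by rw [hP]; exact Nat.le_ceil y
  have hPy : (P : ℝ) ≤ 2 * y := by
    have := (Nat.ceil_lt_add_one (by linarith : 0 ≤ y)).le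
    rw [hP]
    linarith
  have hPr : (25000000 : ℝ) ≤ P := hy1.trans hyP
  have hP0 : 25000000 ≤ P := by exact_mod_cast hPr
  have hlogP : 0 < Real.log P := Real.log_pos (by linarith)
  have hcard := Pr_card P hP0
  have hmain0 := fun O hA' hB' hk => main_ineq A B P (by omega) (by
    have h1 : (B.card : ℝ) ≤ (P : ℝ) ^ 2 := by
      have h2 : sb ≤ P := by nlinarith
      calc (B.card : ℝ) = sb ^ 2 := by rw [hsb2, hb]
        _ ≤ (P : ℝ) ^ 2 := pow_le_pow_left₀ (by linarith) h2 2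
    exact_mod_cast h1) (Pr P) O (mem_Pr P) hA' hB' hk
  obtain ⟨s, hs⟩ : ∃ s : ℝ, s = ((Pr P).card : ℝ) := ⟨_, rfl⟩
  rw [← hs] at hcard
  have hspos : 0 < s := by
    by_contra hneg
    rw [not_lt] at hneg
    have : s * (2 * Real.log P) ≤ 0 := mul_nonpos_of_nonpos_of_nonneg hneg (by linarith)
    linarith
  obtain ⟨O, hO⟩ : ∃ O : ℝ, O = L / Real.log P := ⟨_, rfl⟩
  have hO0 : 0 ≤ O := by rw [hO]; positivity
  have hOs : O * (25000000 * sb) ≤ 2 * s := by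
    rw [hO, div_mul_eq_mul_div, div_le_iff₀ hlogP]
    have : L * (25000000 * sb) = y := by rw [hy]; ring
    rw [this]
    calc y ≤ P := hyP
      _ ≤ s * (2 * Real.log P) := hcard
      _ = 2 * s * Real.log P := by ring
  have hOs1 : O * sb ≤ s := by nlinarith
  have hOs2 : O ≤ s / 2 := by nlinarith
  have hmain := hmain0 O
    (fun u hu v hv huv => by rw [hO, hL]; exact diff_bound P X (by omega) A hA u hu v hv huv)
    (fun u hu v hv huv => by rw [hO, hL]; exact diff_bound P X (by omega) B hB u hu v hv huv)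
    (fun u hu v hv k hk0 hk => by
      rw [← hs]
      refine le_trans ?_ hOs2
      rw [hO, hL]
      exact root_bound P X (by omega) u v k (hA u hu) (hB v hv) hk0 hk)
  rw [← ha, ← hb, ← hs] at hmain
  have hq := num1 s a b sb O hspos hba hb1 hsb2 hsb1 hO0 hOs1
  have hN := num2 _ s a b P _ hspos (by positivity) hmain hq
  have hlb := log_b X hX B hB hB1
  rw [← hb, ← hL] at hlb
  have hlsb : Real.log sb ≤ L := by
    rw [hsb, Real.log_sqrt (by linarith)]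
    linarith
  have hlP := log_P sb L y P hsb1 hL1 hlsb hy (by linarith) hPy
  have hfin := num3 _ s a b sb P L (Real.log P) hspos ha1 hsb2 hsb1 hL1 hN hcard hlP (by rw [← hy]; exact hyP)
    (by rw [← hy]; exact hPy)
  rw [← ha, ← hb, ← hsb, ← hL]
  exact hfin

end Pool.Agent.SqLB
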