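import Pool.Agent.Lib.MP_071053_nt.Sq.Sieve

/-! # Primes in `(P, 4P]` -/

set_option autoImplicit false

namespace Pool.Agent.SqLB

open Finset Real

/-- the primes in `(P, 4P]` -/
def Pr (P : ℕ) : Finset ℕ := (Finset.Ioc P (4 * P)).filter Nat.Prime

theorem mem_Pr (P p : ℕ) (h : p ∈ Pr P) : p.Prime ∧ P < p ∧ p ≤ 4 * P := by
  obtain ⟨h1, h2⟩ := Finset.mem_filter.mp h
  obtain ⟨h3, h4⟩ := Finset.mem_Ioc.mp h1
  exact ⟨h2, h3, h4⟩

theorem Pr_theta (P : ℕ) (hP : 1 ≤ P) :
    Chebyshev.theta (4 * P : ℕ) - Chebyshev.theta (P : ℕ) ≤ (Pr P).card * Real.log (4 * P) := by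
  have h1 : Chebyshev.theta (4 * P : ℕ) - Chebyshev.theta (P : ℕ) = ∑ p ∈ Pr P, Real.log p := by
    unfold Chebyshev.theta Pr
    rw [Nat.floor_natCast, Nat.floor_natCast]
    have hu : (Finset.Ioc 0 (4 * P)).filter Nat.Prime =
        (Finset.Ioc 0 P).filter Nat.Prime ∪ (Finset.Ioc P (4 * P)).filter Nat.Prime := by
      rw [← Finset.filter_union, Finset.Ioc_union_Ioc_eq_Ioc (Nat.zero_le _) (by omega)]
    have hd : Disjoint ((Finset.Ioc 0 P).filter Nat.Prime) ((Finset.Ioc P (4 * P)).filter Nat.Prime) := by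
      rw [Finset.disjoint_left]
      intro x hx hy
      have := (Finset.mem_Ioc.mp (Finset.mem_filter.mp hx).1).2
      have := (Finset.mem_Ioc.mp (Finset.mem_filter.mp hy).1).1
      omega
    rw [hu, Finset.sum_union hd]
    ring
  rw [h1]
  calc ∑ p ∈ Pr P, Real.log p ≤ ∑ p ∈ Pr P, Real.log (4 * P) := by
        refine Finset.sum_le_sum fun p hp => ?_
        obtain ⟨a, b, c⟩ := mem_Pr P p hp
        apply Real.log_le_log
        · exact_mod_cast a.pos
        · exact_mod_cast c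
    _ = (Pr P).card * Real.log (4 * P) := by rw [Finset.sum_const, nsmul_eq_mul]

/-- the number of primes in `(P, 4P]` -/
theorem Pr_card (P : ℕ) (hP : 25000000 ≤ P) : (P : ℝ) ≤ (Pr P).card * (2 * Real.log P) := by
  have hP' : (25000000 : ℝ) ≤ P := by exact_mod_cast hP
  have h1 := Pr_theta P (by omega)
  have h2 := Chebyshev.theta_ge (4 * P)
  have h3 := Chebyshev.theta_le_log4_mul_x (x := (P : ℝ)) (by linarith)
  push_cast at h1 h2
  set u : ℝ := Real.sqrt (Real.sqrt (4 * P)) with hu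
  have hu0 : 0 ≤ u := Real.sqrt_nonneg _
  have hs0 : 0 ≤ Real.sqrt (4 * (P : ℝ)) := Real.sqrt_nonneg _
  have hu2 : u ^ 2 = Real.sqrt (4 * P) := Real.sq_sqrt hs0
  have hu4 : u ^ 4 = 4 * (P : ℝ) := by
    have e : u ^ 4 = (u ^ 2) ^ 2 := by ring
    rw [e, hu2, Real.sq_sqrt (by linarith)]
  have hu100 : 100 ≤ u := by
    by_contra hlt
    rw [not_le] at hlt
    have : u ^ 4 < 100 ^ 4 := pow_lt_pow_left₀ hlt hu0 (by norm_num)
    rw [hu4] at this
    linarith
  have hlog : Real.log (4 * P) ≤ 4 * u := by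
    have : Real.log (4 * P) = 4 * Real.log u := by
      rw [← hu4, Real.log_pow]; norm_num
    rw [this]
    have := Real.log_le_sub_one_of_pos (by linarith : 0 < u)
    linarith
  have hlog1 : Real.log (4 * P + 1) ≤ 4 * u + 1 := by
    have h4 : Real.log (4 * P + 1) = Real.log (4 * P) + Real.log (1 + 1 / (4 * P)) := by
      rw [← Real.log_mul (by positivity) (by positivity)]
      congr 1
      field_simp
    have h5 : Real.log (1 + 1 / (4 * (P : ℝ))) ≤ 1 / (4 * P) := by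
      have := Real.log_le_sub_one_of_pos (x := 1 + 1 / (4 * (P : ℝ))) (by positivity)
      linarith
    have h6 : 1 / (4 * (P : ℝ)) ≤ 1 := by
      rw [div_le_one (by positivity)]; linarith
    linarith
  have hmul : 2 * Real.sqrt (4 * P) * Real.log (4 * P) ≤ 8 * u ^ 3 := by
    rw [← hu2]
    have := mul_le_mul_of_nonneg_left hlog (by positivity : 0 ≤ 2 * u ^ 2)
    nlinarith
  have l2 := Real.log_two_gt_d9
  have l4 : Real.log 4 = 2 * Real.log 2 := by
    rw [show (4 : ℝ) = 2 ^ 2 by norm_num, Real.log_pow]; norm_num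
  rw [l4] at h3
  have hkey : (P : ℝ) ≤ (Pr P).card * Real.log (4 * P) := by
    have e1 : 4 * P * Real.log 2 - Real.log (4 * P + 1) - 2 * Real.sqrt (4 * P) * Real.log (4 * P)
        - 2 * Real.log 2 * P ≤ (Pr P).card * Real.log (4 * P) := by linarith
    have hP2 : 2 * Real.log 2 * P ≥ 1.386 * P := by nlinarith
    have hPu : (P : ℝ) = u ^ 4 / 4 := by rw [hu4]; ring
    have e2 : 0.386 * (P : ℝ) ≥ 8 * u ^ 3 + (4 * u + 1) := by
      rw [hPu]
      have : u ^ 4 ≥ 100 * u ^ 3 := by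
        have := mul_le_mul_of_nonneg_right hu100 (by positivity : 0 ≤ u ^ 3)
        nlinarith
      have : u ^ 3 ≥ 10000 * u := by
        have h7 : u ^ 2 ≥ 10000 := by nlinarith
        nlinarith
      nlinarith
    linarith
  have hlogP : Real.log (4 * P) ≤ 2 * Real.log P := by
    have : (4 * P : ℝ) ≤ P ^ 2 := by nlinarith
    have h8 := Real.log_le_log (by positivity) this
    rw [Real.log_pow] at h8
    exact_mod_cast h8
  calc (P : ℝ) ≤ (Pr P).card * Real.log (4 * P) := hkey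
    _ ≤ (Pr P).card * (2 * Real.log P) := mul_le_mul_of_nonneg_left hlogP (Nat.cast_nonneg _)

/-- few primes of `(P, 4P]` divide a given number -/
theorem dl_sum (P : ℕ) (hP : 2 ≤ P) (a b : ℤ) (Y : ℝ) (hab : a ≠ b) (hY : |((a - b : ℤ) : ℝ)| ≤ Y) :
    ∑ p ∈ Pr P, dl p a b ≤ Real.log Y / Real.log P := by
  classical
  have hlP : 0 < Real.log P := Real.log_pos (by exact_mod_cast hP)
  set T : Finset ℕ := (Pr P).filter (fun p : ℕ => (p : ℤ) ∣ a - b) with hT
  have h1 : ∑ p ∈ Pr P, dl p a b = T.card := by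
    unfold dl
    rw [Finset.sum_ite, Finset.sum_const_zero, add_zero, Finset.sum_const, nsmul_eq_mul, mul_one]
  rw [h1, le_div_iff₀ hlP]
  have hd : ∏ p ∈ T, p ∣ (a - b).natAbs := by
    apply Finset.prod_primes_dvd
    · intro p hp
      exact (mem_Pr P p (Finset.mem_filter.mp hp).1).1.prime
    · intro p hp
      exact Int.natCast_dvd.mp (Finset.mem_filter.mp hp).2
  have hne : (a - b).natAbs ≠ 0 := by
    rw [Ne, Int.natAbs_eq_zero, sub_eq_zero]
    exact hab
  have h2 : P ^ T.card ≤ (a - b).natAbs := by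
    refine le_trans ?_ (Nat.le_of_dvd (Nat.pos_of_ne_zero hne) hd)
    calc P ^ T.card = ∏ p ∈ T, P := by rw [Finset.prod_const]
      _ ≤ ∏ p ∈ T, p := Finset.prod_le_prod' fun p hp => (mem_Pr P p (Finset.mem_filter.mp hp).1).2.1.le
  have h3 : ((P : ℝ)) ^ T.card ≤ Y := by
    have h4 : ((P : ℝ)) ^ T.card ≤ ((a - b).natAbs : ℝ) := by exact_mod_cast h2
    have h5 : (((a - b).natAbs : ℕ) : ℝ) = |((a - b : ℤ) : ℝ)| := by
      rw [Nat.cast_natAbs, Int.cast_abs]
    rw [h5] at h4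
    exact h4.trans hY
  have h6 := Real.log_le_log (by positivity) h3
  rw [Real.log_pow] at h6
  exact h6

end Pool.Agent.SqLB
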