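import Pool.Agent.Lib.MP_071053_nt.Sq.Chr

/-! # The quadratic large sieve for sumsets -/

set_option autoImplicit false

namespace Pool.Agent.SqLB

open Finset

/-- the quadratic character mod `p`, `0` if `p` is not a prime -/
noncomputable def ch (p : ℕ) (t : ℤ) : ℝ :=
  open Classical in if h : p.Prime then @chi p ⟨h⟩ (t : ZMod p) else 0

theorem ch_eq (p : ℕ) [hp : Fact p.Prime] (t : ℤ) : ch p t = chi p (t : ZMod p) := by
  unfold ch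
  rw [dif_pos hp.out]

theorem ch_abs_le (p : ℕ) (t : ℤ) : |ch p t| ≤ 1 := by
  unfold ch
  split_ifs with h
  · have : Fact p.Prime := ⟨h⟩
    exact chi_abs_le _
  · simp

/-- at a square prime to `p` the character is `1` -/
theorem ch_sq (p : ℕ) (hp : p.Prime) (k : ℤ) (hk : ¬ (p : ℤ) ∣ k) : ch p (k ^ 2) = 1 := by
  have : Fact p.Prime := ⟨hp⟩
  rw [ch_eq, Int.cast_pow, chi_sq]
  intro h
  exact hk ((ZMod.intCast_zmod_eq_zero_iff_dvd k p).mp h)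

theorem ch_sq_nonneg (p : ℕ) (k : ℤ) : 0 ≤ ch p (k ^ 2) := by
  by_cases hp : p.Prime
  · by_cases hk : (p : ℤ) ∣ k
    · have : Fact p.Prime := ⟨hp⟩
      rw [ch_eq, Int.cast_pow, (ZMod.intCast_zmod_eq_zero_iff_dvd k p).mpr hk]
      simp [chi_zero]
    · rw [ch_sq p hp k hk]; norm_num
  · unfold ch
    rw [dif_neg hp]

/-- indicator of `p ∣ a - b` -/
noncomputable def dl (p : ℕ) (a b : ℤ) : ℝ := open Classical in if (p : ℤ) ∣ a - b then 1 else 0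

theorem dl_nonneg (p : ℕ) (a b : ℤ) : 0 ≤ dl p a b := by
  unfold dl; split_ifs <;> norm_num

theorem dl_le_one (p : ℕ) (a b : ℤ) : dl p a b ≤ 1 := by
  unfold dl; split_ifs <;> norm_num

/-- number of pairs of `A` congruent modulo `p` and `q` -/
noncomputable def EE (A : Finset ℤ) (p q : ℕ) : ℝ := ∑ a ∈ A, ∑ b ∈ A, dl p a b * dl q a b

theorem EE_nonneg (A : Finset ℤ) (p q : ℕ) : 0 ≤ EE A p q :=
  Finset.sum_nonneg fun a _ => Finset.sum_nonneg fun b _ => mul_nonneg (dl_nonneg _ _ _) (dl_nonneg _ _ _)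

theorem En_eq (A : Finset ℤ) (p q : ℕ) [Fact p.Prime] [Fact q.Prime] : ((En p q A).card : ℝ) = EE A p q := by
  classical
  rw [En_card]
  unfold EE
  refine Finset.sum_congr rfl fun a _ => Finset.sum_congr rfl fun b _ => ?_
  have h1 : ((a : ZMod p) = b) ↔ (p : ℤ) ∣ a - b := by
    rw [eq_comm, ZMod.intCast_eq_intCast_iff_dvd_sub]
  have h2 : ((a : ZMod q) = b) ↔ (q : ℤ) ∣ a - b := by
    rw [eq_comm, ZMod.intCast_eq_intCast_iff_dvd_sub]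
  unfold dl
  rw [if_congr (and_congr h1 h2) rfl rfl]
  by_cases e1 : (p : ℤ) ∣ a - b <;> by_cases e2 : (q : ℤ) ∣ a - b <;> simp [e1, e2]

/-- the sum over the moduli -/
theorem EE_sum (A : Finset ℤ) (S : Finset ℕ) (O : ℝ)
    (hO : ∀ a ∈ A, ∀ b ∈ A, a ≠ b → ∑ p ∈ S, dl p a b ≤ O) :
    ∑ p ∈ S, ∑ q ∈ S, EE A p q ≤ (S.card : ℝ) ^ 2 * A.card + O ^ 2 * (A.card : ℝ) ^ 2 := by
  classical
  have h1 : ∑ p ∈ S, ∑ q ∈ S, EE A p q = ∑ a ∈ A, ∑ b ∈ A, (∑ p ∈ S, dl p a b) ^ 2 := by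
    have e : ∀ a b : ℤ, (∑ p ∈ S, dl p a b) ^ 2 = ∑ p ∈ S, ∑ q ∈ S, dl p a b * dl q a b := by
      intro a b
      rw [pow_two, Finset.sum_mul_sum]
    simp only [e]
    unfold EE
    calc ∑ p ∈ S, ∑ q ∈ S, ∑ a ∈ A, ∑ b ∈ A, dl p a b * dl q a b
        = ∑ p ∈ S, ∑ a ∈ A, ∑ q ∈ S, ∑ b ∈ A, dl p a b * dl q a b :=
          Finset.sum_congr rfl fun p _ => Finset.sum_comm
      _ = ∑ a ∈ A, ∑ p ∈ S, ∑ q ∈ S, ∑ b ∈ A, dl p a b * dl q a b := Finset.sum_comm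
      _ = ∑ a ∈ A, ∑ p ∈ S, ∑ b ∈ A, ∑ q ∈ S, dl p a b * dl q a b :=
          Finset.sum_congr rfl fun a _ => Finset.sum_congr rfl fun p _ => Finset.sum_comm
      _ = ∑ a ∈ A, ∑ b ∈ A, ∑ p ∈ S, ∑ q ∈ S, dl p a b * dl q a b :=
          Finset.sum_congr rfl fun a _ => Finset.sum_comm
  rw [h1]
  have h2 : ∀ a ∈ A, ∀ b ∈ A, (∑ p ∈ S, dl p a b) ^ 2 ≤ (if a = b then (S.card : ℝ) ^ 2 else 0) + O ^ 2 := by
    intro a ha b hb
    have h0 : 0 ≤ ∑ p ∈ S, dl p a b := Finset.sum_nonneg fun p _ => dl_nonneg _ _ _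
    by_cases e : a = b
    · rw [if_pos e]
      have h3 : ∑ p ∈ S, dl p a b ≤ S.card := by
        calc ∑ p ∈ S, dl p a b ≤ ∑ p ∈ S, (1 : ℝ) := Finset.sum_le_sum fun p _ => dl_le_one _ _ _
          _ = S.card := by simp
      nlinarith [sq_nonneg O]
    · rw [if_neg e, zero_add]
      exact pow_le_pow_left₀ h0 (hO a ha b hb e) 2
  calc ∑ a ∈ A, ∑ b ∈ A, (∑ p ∈ S, dl p a b) ^ 2
      ≤ ∑ a ∈ A, ∑ b ∈ A, ((if a = b then (S.card : ℝ) ^ 2 else 0) + O ^ 2) :=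
        Finset.sum_le_sum fun a ha => Finset.sum_le_sum fun b hb => h2 a ha b hb
    _ = ∑ a ∈ A, ((S.card : ℝ) ^ 2 + A.card * O ^ 2) := by
        refine Finset.sum_congr rfl fun a ha => ?_
        rw [Finset.sum_add_distrib, Finset.sum_ite_eq, if_pos ha, Finset.sum_const, nsmul_eq_mul]
    _ = (S.card : ℝ) ^ 2 * A.card + O ^ 2 * (A.card : ℝ) ^ 2 := by
        rw [Finset.sum_const, nsmul_eq_mul]; ring

/-- pairs whose sum is a nonzero square -/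
noncomputable def SqP (A B : Finset ℤ) : Finset (ℤ × ℤ) :=
  open Classical in (A ×ˢ B).filter fun x => ∃ k : ℤ, k ≠ 0 ∧ x.1 + x.2 = k ^ 2

/-- one pair of moduli -/
theorem pair_bound (A B : Finset ℤ) (P : ℕ) (hP : 2 ≤ P) (hB : B.card ≤ P ^ 2) (p q : ℕ) (hp : p.Prime) (hq : q.Prime)
    (hpP : P < p) (hqP : P < q) (hp4 : p ≤ 4 * P) (hq4 : q ≤ 4 * P) (hne : p ≠ q) :
    ∑ a ∈ A, ∑ b ∈ B, ch p (a + b) * ch q (a + b) ≤ 6 * P * (Real.sqrt (EE A p q) * Real.sqrt (EE B p q)) := by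
  have : Fact p.Prime := ⟨hp⟩
  have : Fact q.Prime := ⟨hq⟩
  have hp2 : p ≠ 2 := by omega
  have hq2 : q ≠ 2 := by omega
  have hBpq : B.card ≤ p * q := hB.trans (by nlinarith)
  have hT : ∑ a ∈ A, ∑ b ∈ B, ch p (a + b) * ch q (a + b) = TT p q A B := by
    unfold TT
    refine Finset.sum_congr rfl fun a _ => Finset.sum_congr rfl fun b _ => ?_
    rw [ch_eq, ch_eq]
  have h1 := TT_sq hp2 hq2 A B hBpq
  rw [En_eq, En_eq] at h1
  rw [hT, ← Real.sqrt_mul (EE_nonneg A p q)]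
  have hE0 : 0 ≤ EE A p q * EE B p q := mul_nonneg (EE_nonneg _ _ _) (EE_nonneg _ _ _)
  have h2 : 2 * ((p : ℝ) * q) ≤ (6 * P) ^ 2 := by
    have a1 : (p : ℝ) ≤ 4 * P := by exact_mod_cast hp4
    have a2 : (q : ℝ) ≤ 4 * P := by exact_mod_cast hq4
    have a3 : (0 : ℝ) ≤ p := Nat.cast_nonneg _
    have a4 : (0 : ℝ) ≤ q := Nat.cast_nonneg _
    nlinarith [mul_le_mul a1 a2 a4 (by positivity : (0 : ℝ) ≤ 4 * P)]
  have h3 : (TT p q A B) ^ 2 ≤ (6 * P * Real.sqrt (EE A p q * EE B p q)) ^ 2 := by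
    rw [mul_pow, Real.sq_sqrt hE0]
    exact h1.trans (mul_le_mul_of_nonneg_right h2 hE0)
  exact (le_abs_self _).trans (abs_le_of_sq_le_sq h3 (by positivity))

/-- Cauchy-Schwarz for double sums -/
theorem cs2 (S : Finset ℕ) (f g : ℕ → ℕ → ℝ) (hf : ∀ p q, 0 ≤ f p q) (hg : ∀ p q, 0 ≤ g p q) :
    ∑ p ∈ S, ∑ q ∈ S, Real.sqrt (f p q) * Real.sqrt (g p q) ≤
      Real.sqrt (∑ p ∈ S, ∑ q ∈ S, f p q) * Real.sqrt (∑ p ∈ S, ∑ q ∈ S, g p q) := by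
  have h1 := Real.sum_sqrt_mul_sqrt_le (S ×ˢ S) (f := fun x => f x.1 x.2) (g := fun x => g x.1 x.2)
    (fun x => hf x.1 x.2) (fun x => hg x.1 x.2)
  simp only [Finset.sum_product] at h1
  exact h1

/-- the main inequality -/
theorem main_ineq (A B : Finset ℤ) (P : ℕ) (hP : 2 ≤ P) (hB : B.card ≤ P ^ 2) (S : Finset ℕ) (O : ℝ)
    (hS : ∀ p ∈ S, p.Prime ∧ P < p ∧ p ≤ 4 * P)
    (hOA : ∀ a ∈ A, ∀ b ∈ A, a ≠ b → ∑ p ∈ S, dl p a b ≤ O)
    (hOB : ∀ a ∈ B, ∀ b ∈ B, a ≠ b → ∑ p ∈ S, dl p a b ≤ O)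
    (hk : ∀ a ∈ A, ∀ b ∈ B, ∀ k : ℤ, k ≠ 0 → a + b = k ^ 2 → ∑ p ∈ S, dl p k 0 ≤ (S.card : ℝ) / 2) :
    ((SqP A B).card : ℝ) * ((S.card : ℝ) / 2) ^ 2 ≤ S.card * (A.card * B.card) +
      6 * P * (Real.sqrt ((S.card : ℝ) ^ 2 * A.card + O ^ 2 * (A.card : ℝ) ^ 2) *
        Real.sqrt ((S.card : ℝ) ^ 2 * B.card + O ^ 2 * (B.card : ℝ) ^ 2)) := by
  classical
  have hlow : ((SqP A B).card : ℝ) * ((S.card : ℝ) / 2) ^ 2 ≤
      ∑ a ∈ A, ∑ b ∈ B, (∑ p ∈ S, ch p (a + b)) ^ 2 := by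
    rw [← Finset.sum_product' A B (fun a b => (∑ p ∈ S, ch p (a + b)) ^ 2), ← nsmul_eq_mul]
    refine le_trans (Finset.card_nsmul_le_sum (SqP A B) (fun x => (∑ p ∈ S, ch p (x.1 + x.2)) ^ 2) _ ?_)
      (Finset.sum_le_sum_of_subset_of_nonneg ?_ ?_)
    · intro x hx
      obtain ⟨hx1, k, hk0, hkx⟩ := Finset.mem_filter.mp hx
      obtain ⟨ha, hb⟩ := Finset.mem_product.mp hx1
      have h1 := hk x.1 ha x.2 hb k hk0 hkx
      have h2 : (S.card : ℝ) - ∑ p ∈ S, dl p k 0 ≤ ∑ p ∈ S, ch p (x.1 + x.2) := by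
        have e : (S.card : ℝ) = ∑ p ∈ S, (1 : ℝ) := by simp
        rw [e, ← Finset.sum_sub_distrib]
        refine Finset.sum_le_sum fun p hp => ?_
        rw [hkx]
        by_cases hd : (p : ℤ) ∣ k
        · have : dl p k 0 = 1 := by unfold dl; rw [sub_zero, if_pos hd]
          rw [this]; simpa using ch_sq_nonneg p k
        · rw [ch_sq p (hS p hp).1 k hd]
          linarith [dl_nonneg p k 0]
      have h3 : (S.card : ℝ) / 2 ≤ ∑ p ∈ S, ch p (x.1 + x.2) := by linarith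
      exact pow_le_pow_left₀ (by positivity) h3 2
    · exact Finset.filter_subset _ _
    · intro x _ _
      exact sq_nonneg _
  refine hlow.trans ?_
  have hexp : ∑ a ∈ A, ∑ b ∈ B, (∑ p ∈ S, ch p (a + b)) ^ 2 =
      ∑ p ∈ S, ∑ q ∈ S, ∑ a ∈ A, ∑ b ∈ B, ch p (a + b) * ch q (a + b) := by
    have e : ∀ a b : ℤ, (∑ p ∈ S, ch p (a + b)) ^ 2 = ∑ p ∈ S, ∑ q ∈ S, ch p (a + b) * ch q (a + b) := by
      intro a b
      rw [pow_two, Finset.sum_mul_sum]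
    simp only [e]
    calc ∑ a ∈ A, ∑ b ∈ B, ∑ p ∈ S, ∑ q ∈ S, ch p (a + b) * ch q (a + b)
        = ∑ a ∈ A, ∑ p ∈ S, ∑ b ∈ B, ∑ q ∈ S, ch p (a + b) * ch q (a + b) :=
          Finset.sum_congr rfl fun a _ => Finset.sum_comm
      _ = ∑ p ∈ S, ∑ a ∈ A, ∑ b ∈ B, ∑ q ∈ S, ch p (a + b) * ch q (a + b) := Finset.sum_comm
      _ = ∑ p ∈ S, ∑ a ∈ A, ∑ q ∈ S, ∑ b ∈ B, ch p (a + b) * ch q (a + b) :=
          Finset.sum_congr rfl fun p _ => Finset.sum_congr rfl fun a _ => Finset.sum_comm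
      _ = ∑ p ∈ S, ∑ q ∈ S, ∑ a ∈ A, ∑ b ∈ B, ch p (a + b) * ch q (a + b) :=
          Finset.sum_congr rfl fun p _ => Finset.sum_comm
  rw [hexp]
  have hterm : ∀ p ∈ S, ∀ q ∈ S, ∑ a ∈ A, ∑ b ∈ B, ch p (a + b) * ch q (a + b) ≤
      (if p = q then (A.card : ℝ) * B.card else 0) + 6 * P * (Real.sqrt (EE A p q) * Real.sqrt (EE B p q)) := by
    intro p hp q hq
    have hpos : 0 ≤ 6 * (P : ℝ) * (Real.sqrt (EE A p q) * Real.sqrt (EE B p q)) := by positivity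
    by_cases hpq : p = q
    · rw [if_pos hpq]
      have h1 : ∑ a ∈ A, ∑ b ∈ B, ch p (a + b) * ch q (a + b) ≤ ∑ a ∈ A, ∑ b ∈ B, (1 : ℝ) := by
        refine Finset.sum_le_sum fun a _ => Finset.sum_le_sum fun b _ => ?_
        calc ch p (a + b) * ch q (a + b) ≤ |ch p (a + b) * ch q (a + b)| := le_abs_self _
          _ = |ch p (a + b)| * |ch q (a + b)| := abs_mul _ _
          _ ≤ 1 * 1 := mul_le_mul (ch_abs_le _ _) (ch_abs_le _ _) (abs_nonneg _) zero_le_one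
          _ = 1 := one_mul 1
      have h2 : ∑ a ∈ A, ∑ b ∈ B, (1 : ℝ) = (A.card : ℝ) * B.card := by simp
      linarith
    · rw [if_neg hpq, zero_add]
      obtain ⟨hp1, hp2, hp3⟩ := hS p hp
      obtain ⟨hq1, hq2, hq3⟩ := hS q hq
      exact pair_bound A B P hP hB p q hp1 hq1 hp2 hq2 hp3 hq3 hpq
  have hcs : ∑ p ∈ S, ∑ q ∈ S, Real.sqrt (EE A p q) * Real.sqrt (EE B p q) ≤
      Real.sqrt ((S.card : ℝ) ^ 2 * A.card + O ^ 2 * (A.card : ℝ) ^ 2) *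
        Real.sqrt ((S.card : ℝ) ^ 2 * B.card + O ^ 2 * (B.card : ℝ) ^ 2) := by
    have h1 := cs2 S (EE A) (EE B) (EE_nonneg A) (EE_nonneg B)
    exact h1.trans (mul_le_mul (Real.sqrt_le_sqrt (EE_sum A S O hOA)) (Real.sqrt_le_sqrt (EE_sum B S O hOB))
      (Real.sqrt_nonneg _) (Real.sqrt_nonneg _))
  calc ∑ p ∈ S, ∑ q ∈ S, ∑ a ∈ A, ∑ b ∈ B, ch p (a + b) * ch q (a + b)
      ≤ ∑ p ∈ S, ∑ q ∈ S, ((if p = q then (A.card : ℝ) * B.card else 0) +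
          6 * P * (Real.sqrt (EE A p q) * Real.sqrt (EE B p q))) :=
        Finset.sum_le_sum fun p hp => Finset.sum_le_sum fun q hq => hterm p hp q hq
    _ = S.card * (A.card * B.card) + 6 * P * ∑ p ∈ S, ∑ q ∈ S, Real.sqrt (EE A p q) * Real.sqrt (EE B p q) := by
        simp only [Finset.sum_add_distrib, Finset.mul_sum]
        congr 1
        rw [Finset.sum_congr rfl (fun p hp => by rw [Finset.sum_ite_eq, if_pos hp])]
        rw [Finset.sum_const, nsmul_eq_mul]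
    _ ≤ _ := by
        have := mul_le_mul_of_nonneg_left hcs (by positivity : (0 : ℝ) ≤ 6 * P)
        linarith

end Pool.Agent.SqLB
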