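import Pool.Agent.Lib.MP_071053_nt.Sq.Div

/-! # Covering sets which are unions of few sets of small doubling -/

set_option autoImplicit false

namespace Pool.Agent.SqLB

open Finset Real
open scoped Pointwise

/-- Cauchy-Schwarz for the fibres of a map -/
theorem pairs_fiber {α β : Type*} [DecidableEq α] [DecidableEq β] (S : Finset α) (V : Finset β) (f : α → β)
    (hf : ∀ k ∈ S, f k ∈ V) :
    S.card ^ 2 ≤ V.card * ((S ×ˢ S).filter (fun x => f x.1 = f x.2)).card := by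
  classical
  have h1 : S.card = ∑ y ∈ V, (S.filter (fun k => f k = y)).card :=
    Finset.card_eq_sum_card_fiberwise hf
  have h2 : ((S ×ˢ S).filter (fun x => f x.1 = f x.2)).card =
      ∑ y ∈ V, (S.filter (fun k => f k = y)).card ^ 2 := by
    have h3 : ∀ x ∈ (S ×ˢ S).filter (fun x => f x.1 = f x.2), f x.1 ∈ V := fun x hx =>
      hf _ (Finset.mem_product.mp (Finset.mem_filter.mp hx).1).1
    rw [Finset.card_eq_sum_card_fiberwise h3]
    refine Finset.sum_congr rfl fun y _ => ?_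
    rw [sq, ← Finset.card_product]
    congr 1
    ext x
    simp only [Finset.mem_filter, Finset.mem_product]
    constructor
    · rintro ⟨⟨⟨h4, h5⟩, h6⟩, h7⟩
      exact ⟨⟨h4, h7⟩, h5, h6 ▸ h7⟩
    · rintro ⟨⟨h4, h7⟩, h5, h8⟩
      exact ⟨⟨⟨h4, h5⟩, h7.trans h8.symm⟩, h7⟩
  rw [h2, h1]
  exact sq_sum_le_card_mul_sum_sq

/-- the pairs `(k, l)` with `k ^ 2 - l ^ 2 = D` -/
theorem sq_diff_card (S : Finset ℕ) (hS : ∀ k ∈ S, 1 ≤ k) (D : ℤ) (hD : D ≠ 0) :
    ((S ×ˢ S).filter (fun x => ((x.1 : ℤ) ^ 2 - (x.2 : ℤ) ^ 2) = D)).card ≤ D.natAbs.divisors.card := by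
  classical
  refine Finset.card_le_card_of_injOn (fun x => x.1 + x.2) ?_ ?_
  · intro x hx
    obtain ⟨h1, h2⟩ := Finset.mem_filter.mp hx
    refine Finset.mem_coe.mpr (Nat.mem_divisors.mpr ⟨?_, Int.natAbs_ne_zero.mpr hD⟩)
    rw [← Int.natCast_dvd_natCast, Int.dvd_natAbs]
    exact ⟨(x.1 : ℤ) - x.2, by rw [← h2]; push_cast; ring⟩
  · intro x hx y hy hxy
    obtain ⟨h1, h2⟩ := Finset.mem_filter.mp (Finset.mem_coe.mp hx)
    obtain ⟨h3, h4⟩ := Finset.mem_filter.mp (Finset.mem_coe.mp hy)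
    have h5 : (x.1 : ℤ) + x.2 = (y.1 : ℤ) + y.2 := by exact_mod_cast hxy
    have h6 : 1 ≤ x.1 := hS _ (Finset.mem_product.mp h1).1
    have h7 : ((x.1 : ℤ) + x.2) * ((x.1 : ℤ) - x.2) = ((x.1 : ℤ) + x.2) * ((y.1 : ℤ) - y.2) := by
      have e1 : ((x.1 : ℤ) + x.2) * ((x.1 : ℤ) - x.2) = D := by rw [← h2]; ring
      have e2 : ((y.1 : ℤ) + y.2) * ((y.1 : ℤ) - y.2) = D := by rw [← h4]; ring
      rw [e1, h5, e2]
    have h8 : (x.1 : ℤ) - x.2 = (y.1 : ℤ) - y.2 := by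
      refine mul_left_cancel₀ ?_ h7
      omega
    exact Prod.ext (by omega) (by omega)

/-- the basic inequality -/
theorem struct_ineq (n : ℕ) (hn : 1 ≤ n) (T : ℝ)
    (hT : ∀ D : ℕ, D ≠ 0 → D ≤ n ^ 2 → (D.divisors.card : ℝ) ≤ T)
    (J : ℕ) (B : Fin J → Finset ℤ) (A : Finset ℤ) (hAB : ∀ a ∈ A, ∃ i, a ∈ B i)
    (hcov : ∀ k : ℕ, 1 ≤ k → k ≤ n → ∃ a ∈ A, ∃ b ∈ A, a + b = (k : ℤ) ^ 2) :
    (n : ℝ) ^ 2 ≤ (J * (A.card : ℝ)) * (n + T * ∑ i, ((B i - B i).card : ℝ)) := by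
  classical
  set S := Finset.Icc 1 n with hS
  obtain ⟨a₁, ha₁, -⟩ := hcov 1 le_rfl hn
  obtain ⟨i₁, -⟩ := hAB a₁ ha₁
  have : Nonempty (Fin J) := ⟨i₁⟩
  have hc : ∀ k : ℕ, (1 ≤ k ∧ k ≤ n) → ∃ (i : Fin J) (a b : ℤ), a ∈ B i ∧ b ∈ A ∧ a + b = (k : ℤ) ^ 2 := by
    intro k hk
    obtain ⟨a, ha, b, hb, hab⟩ := hcov k hk.1 hk.2
    obtain ⟨i, hi⟩ := hAB a ha
    exact ⟨i, a, b, hi, hb, hab⟩
  choose! fi fa fb hf using hc
  have hSmem : ∀ k ∈ S, 1 ≤ k ∧ k ≤ n := fun k hk => Finset.mem_Icc.mp hk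
  set g : ℕ → Fin J × ℤ := fun k => (fi k, fb k) with hg
  set P := (S ×ˢ S).filter (fun x => g x.1 = g x.2) with hP
  have h1 : S.card ^ 2 ≤ ((Finset.univ : Finset (Fin J)) ×ˢ A).card * P.card := by
    refine pairs_fiber S _ g fun k hk => ?_
    exact Finset.mem_product.mpr ⟨Finset.mem_univ _, (hf k (hSmem k hk)).2.1⟩
  have hScard : S.card = n := by rw [hS, Nat.card_Icc]; omega
  have h2 : ((Finset.univ : Finset (Fin J)) ×ˢ A).card = J * A.card := by
    rw [Finset.card_product, Finset.card_univ, Fintype.card_fin]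
  -- the diagonal
  have h3 : (P.filter (fun x => x.1 = x.2)).card ≤ n := by
    rw [← hScard]
    refine Finset.card_le_card_of_injOn (fun x => x.1) ?_ ?_
    · intro x hx
      exact Finset.mem_coe.mpr (Finset.mem_product.mp (Finset.mem_filter.mp (Finset.mem_filter.mp
        (Finset.mem_coe.mp hx)).1).1).1
    · intro x hx y hy hxy
      have e1 := (Finset.mem_filter.mp (Finset.mem_coe.mp hx)).2
      have e2 := (Finset.mem_filter.mp (Finset.mem_coe.mp hy)).2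
      exact Prod.ext hxy (by rw [← e1, ← e2]; exact hxy)
  -- off the diagonal
  set Q := P.filter (fun x => ¬ x.1 = x.2) with hQ
  set W : Finset (Fin J × ℤ) := (Finset.univ : Finset (Fin J)).biUnion
    (fun i => (B i - B i).image (fun d => (i, d))) with hW
  have hQmem : ∀ x ∈ Q, (1 ≤ x.1 ∧ x.1 ≤ n) ∧ (1 ≤ x.2 ∧ x.2 ≤ n) ∧ fi x.1 = fi x.2 ∧ fb x.1 = fb x.2 ∧ x.1 ≠ x.2 := by
    intro x hx
    obtain ⟨e1, e2⟩ := Finset.mem_filter.mp hx
    obtain ⟨e3, e4⟩ := Finset.mem_filter.mp e1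
    obtain ⟨e5, e6⟩ := Finset.mem_product.mp e3
    exact ⟨hSmem _ e5, hSmem _ e6, congrArg Prod.fst e4, congrArg Prod.snd e4, e2⟩
  set φ : ℕ × ℕ → Fin J × ℤ := fun x => (fi x.1, (x.1 : ℤ) ^ 2 - (x.2 : ℤ) ^ 2) with hφ
  have h4 : ∀ x ∈ Q, φ x ∈ W := by
    intro x hx
    obtain ⟨e1, e2, e3, e4, e5⟩ := hQmem x hx
    obtain ⟨f1, f2, f3⟩ := hf x.1 e1
    obtain ⟨g1, g2, g3⟩ := hf x.2 e2
    refine Finset.mem_biUnion.mpr ⟨fi x.1, Finset.mem_univ _, Finset.mem_image.mpr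
      ⟨(x.1 : ℤ) ^ 2 - (x.2 : ℤ) ^ 2, ?_, rfl⟩⟩
    rw [← f3, ← g3, e4]
    have e6 : fa x.1 + fb x.2 - (fa x.2 + fb x.2) = fa x.1 - fa x.2 := by ring
    rw [e6]
    rw [← e3] at g1
    exact Finset.sub_mem_sub f1 g1
  have h5 : ∀ w ∈ W, ((Q.filter (fun x => φ x = w)).card : ℝ) ≤ T := by
    intro w _
    rcases Finset.eq_empty_or_nonempty (Q.filter (fun x => φ x = w)) with h | ⟨x, hx⟩
    · rw [h, Finset.card_empty, Nat.cast_zero]
      have := hT 1 one_ne_zero (Nat.one_le_pow _ _ hn)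
      exact le_trans (by positivity) this
    · obtain ⟨hx1, hx2⟩ := Finset.mem_filter.mp hx
      obtain ⟨e1, e2, e3, e4, e5⟩ := hQmem x hx1
      have hw : (x.1 : ℤ) ^ 2 - (x.2 : ℤ) ^ 2 = w.2 := congrArg Prod.snd hx2
      have hw0 : w.2 ≠ 0 := by
        rw [← hw]
        intro h0
        have h1 : (x.1 : ℤ) ^ 2 = (x.2 : ℤ) ^ 2 := by linarith
        have h2 : x.1 ^ 2 = x.2 ^ 2 := by exact_mod_cast h1
        exact e5 (Nat.pow_left_injective (by norm_num : 2 ≠ 0) h2)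
      have hwn : w.2.natAbs ≤ n ^ 2 := by
        rw [← hw]
        have h1 : ((x.1 : ℤ)) ^ 2 ≤ (n : ℤ) ^ 2 := by exact_mod_cast Nat.pow_le_pow_left e1.2 2
        have h2 : ((x.2 : ℤ)) ^ 2 ≤ (n : ℤ) ^ 2 := by exact_mod_cast Nat.pow_le_pow_left e2.2 2
        have h3 : 0 ≤ ((x.1 : ℤ)) ^ 2 := sq_nonneg _
        have h4 : 0 ≤ ((x.2 : ℤ)) ^ 2 := sq_nonneg _
        have h5 : |(x.1 : ℤ) ^ 2 - (x.2 : ℤ) ^ 2| ≤ (n : ℤ) ^ 2 := abs_le.mpr ⟨by linarith, by linarith⟩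
        rw [← Int.natCast_natAbs] at h5
        exact_mod_cast h5
      have hsub : Q.filter (fun x => φ x = w) ⊆
          (S ×ˢ S).filter (fun x => ((x.1 : ℤ) ^ 2 - (x.2 : ℤ) ^ 2) = w.2) := by
        intro y hy
        obtain ⟨hy1, hy2⟩ := Finset.mem_filter.mp hy
        refine Finset.mem_filter.mpr ⟨(Finset.mem_filter.mp (Finset.mem_filter.mp hy1).1).1, ?_⟩
        exact congrArg Prod.snd hy2
      have h6 := (Finset.card_le_card hsub).trans (sq_diff_card S (fun k hk => (hSmem k hk).1) w.2 hw0)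
      have h7 : ((Q.filter (fun x => φ x = w)).card : ℝ) ≤ (w.2.natAbs.divisors.card : ℝ) := by
        exact_mod_cast h6
      exact h7.trans (hT _ (Int.natAbs_ne_zero.mpr hw0) hwn)
  have h6 : (Q.card : ℝ) ≤ T * ∑ i, ((B i - B i).card : ℝ) := by
    have e1 : Q.card = ∑ w ∈ W, (Q.filter (fun x => φ x = w)).card :=
      Finset.card_eq_sum_card_fiberwise h4
    rw [e1, Nat.cast_sum]
    have e2 : (W.card : ℝ) ≤ ∑ i, ((B i - B i).card : ℝ) := by
      have e3 : W.card ≤ ∑ i, (B i - B i).card := by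
        refine Finset.card_biUnion_le.trans (Finset.sum_le_sum fun i _ => Finset.card_image_le)
      exact_mod_cast e3
    have hT1 : 0 ≤ T := by
      have := hT 1 one_ne_zero (Nat.one_le_pow _ _ hn)
      exact le_trans (by positivity) this
    calc ∑ w ∈ W, (((Q.filter (fun x => φ x = w)).card : ℕ) : ℝ) ≤ ∑ _w ∈ W, T := Finset.sum_le_sum h5
      _ = W.card * T := by rw [Finset.sum_const, nsmul_eq_mul]
      _ ≤ (∑ i, ((B i - B i).card : ℝ)) * T := mul_le_mul_of_nonneg_right e2 hT1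
      _ = _ := mul_comm _ _
  have h7 : (P.card : ℝ) ≤ n + T * ∑ i, ((B i - B i).card : ℝ) := by
    have e1 : P.card = (P.filter (fun x => x.1 = x.2)).card + Q.card :=
      (Finset.card_filter_add_card_filter_not (fun x : ℕ × ℕ => x.1 = x.2)).symm
    rw [e1, Nat.cast_add]
    have e2 : ((P.filter (fun x => x.1 = x.2)).card : ℝ) ≤ n := by exact_mod_cast h3
    linarith
  rw [h2, hScard] at h1
  clear_value P Q W S
  have h8 : (n : ℝ) ^ 2 ≤ (J * (A.card : ℝ)) * P.card := by exact_mod_cast h1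
  have h9 : (0 : ℝ) ≤ J * (A.card : ℝ) := mul_nonneg (Nat.cast_nonneg _) (Nat.cast_nonneg _)
  exact h8.trans (mul_le_mul_of_nonneg_left h7 h9)

/-- the lower bound for subsets of unions of `J` sets -/
theorem struct_lower : ∃ C : ℝ, 0 < C ∧ ∀ n : ℕ, 3 ≤ n → ∀ (J : ℕ) (B : Fin J → Finset ℤ) (A : Finset ℤ),
    (∀ a ∈ A, ∃ i, a ∈ B i) →
    (∀ k : ℕ, 1 ≤ k → k ≤ n → ∃ a ∈ A, ∃ b ∈ A, a + b = (k : ℤ) ^ 2) →
    (n : ℝ) ^ (2 - C / Real.log (Real.log n)) ≤ J * (A.card : ℝ) * (n + ∑ i, ((B i - B i).card : ℝ)) ∧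
    ∀ K : ℝ, (∀ i, B i ⊆ A ∧ ((B i - B i).card : ℝ) ≤ K * (B i).card) →
      (n : ℝ) ^ (1 - C / Real.log (Real.log n)) ≤ J * Real.sqrt K * (A.card : ℝ) := by
  obtain ⟨C, hC, h⟩ := tau_bound
  refine ⟨C + 1, by positivity, fun n hn J B A hAB hcov => ?_⟩
  have hn' : (3 : ℝ) ≤ n := by exact_mod_cast hn
  have hn0 : (0 : ℝ) < n := by linarith
  set L := Real.log n with hL
  have hL1 : 1 < L := by
    have h1 : Real.log (Real.exp 1) < Real.log n :=
      Real.log_lt_log (Real.exp_pos 1) (by linarith [Real.exp_one_lt_d9])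
    rwa [Real.log_exp] at h1
  have hLL : 0 < Real.log L := Real.log_pos hL1
  set T : ℝ := (n : ℝ) ^ (C / Real.log L) with hT
  have hT1 : 1 ≤ T := Real.one_le_rpow (by linarith) (by positivity)
  have h1 := struct_ineq n (by omega) T (h n hn) J B A hAB hcov
  set x : ℝ := J * (A.card : ℝ) with hx
  have hx0 : 0 ≤ x := by positivity
  have hS0 : 0 ≤ ∑ i, ((B i - B i).card : ℝ) := Finset.sum_nonneg fun i _ => Nat.cast_nonneg _
  have h6 : (2 : ℝ) ≤ (n : ℝ) ^ (1 / Real.log L) := by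
    rw [Real.rpow_def_of_pos hn0, ← hL]
    have e1 : Real.log 2 ≤ L * (1 / Real.log L) := by
      rw [mul_one_div, le_div_iff₀ hLL]
      have e2 := Real.log_le_sub_one_of_pos (by linarith : 0 < L)
      have e3 : Real.log 2 ≤ 1 := by linarith [Real.log_two_lt_d9]
      have e4 : 0 ≤ Real.log 2 := Real.log_nonneg (by norm_num)
      nlinarith
    calc (2 : ℝ) = Real.exp (Real.log 2) := (Real.exp_log (by norm_num)).symm
      _ ≤ _ := Real.exp_le_exp.mpr e1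
  refine ⟨?_, fun K hK => ?_⟩
  · -- the general inequality
    have e1 : (n : ℝ) ^ 2 ≤ T * (x * (n + ∑ i, ((B i - B i).card : ℝ))) := by
      refine h1.trans ?_
      have e2 : (n : ℝ) + T * ∑ i, ((B i - B i).card : ℝ) ≤ T * (n + ∑ i, ((B i - B i).card : ℝ)) := by
        nlinarith
      calc x * (n + T * ∑ i, ((B i - B i).card : ℝ)) ≤ x * (T * (n + ∑ i, ((B i - B i).card : ℝ))) :=
            mul_le_mul_of_nonneg_left e2 hx0
        _ = _ := by ring
    have e3 : (n : ℝ) ^ (2 - (C + 1) / Real.log L) * T ≤ (n : ℝ) ^ 2 := by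
      rw [hT, ← Real.rpow_add hn0]
      have e4 : (n : ℝ) ^ 2 = (n : ℝ) ^ (2 : ℝ) := by
        rw [← Real.rpow_natCast]
        norm_num
      rw [e4]
      refine Real.rpow_le_rpow_of_exponent_le (by linarith) ?_
      have e5 : (C + 1) / Real.log L = C / Real.log L + 1 / Real.log L := add_div _ _ _
      have e6 : 0 < 1 / Real.log L := by positivity
      rw [e5]
      linarith
    have e7 : 0 < T := by linarith
    refine le_of_mul_le_mul_right ?_ e7
    calc (n : ℝ) ^ (2 - (C + 1) / Real.log L) * T ≤ (n : ℝ) ^ 2 := e3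
      _ ≤ T * (x * (n + ∑ i, ((B i - B i).card : ℝ))) := e1
      _ = x * (n + ∑ i, ((B i - B i).card : ℝ)) * T := by ring
  -- K ≥ 1
  have hK1 : 1 ≤ K := by
    obtain ⟨a, ha, _⟩ := hcov 1 le_rfl (by omega)
    obtain ⟨i, hi⟩ := hAB a ha
    have h2 : ((B i).card : ℝ) ≤ (B i - B i).card := by
      have : (B i).card ≤ (B i - B i).card := Finset.card_le_card_sub_right ⟨a, hi⟩
      exact_mod_cast this
    have h3 : (0 : ℝ) < (B i).card := by exact_mod_cast Finset.card_pos.mpr ⟨a, hi⟩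
    have h4 := h2.trans (hK i).2
    by_contra hcon
    push Not at hcon
    nlinarith
  have h2 : ∑ i, ((B i - B i).card : ℝ) ≤ K * x := by
    calc ∑ i, ((B i - B i).card : ℝ) ≤ ∑ _i : Fin J, K * (A.card : ℝ) := by
          refine Finset.sum_le_sum fun i _ => (hK i).2.trans ?_
          refine mul_le_mul_of_nonneg_left ?_ (by linarith)
          have : (B i).card ≤ A.card := Finset.card_le_card (hK i).1
          exact_mod_cast this
      _ = K * x := by
          rw [Finset.sum_const, Finset.card_univ, Fintype.card_fin, nsmul_eq_mul, hx]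
          ring
  have h3 : (n : ℝ) ^ 2 ≤ x * (n + T * (K * x)) :=
    h1.trans (mul_le_mul_of_nonneg_left (by
      have := mul_le_mul_of_nonneg_left h2 (by linarith : 0 ≤ T)
      linarith) hx0)
  have hsT : 1 ≤ Real.sqrt T := Real.one_le_sqrt.mpr hT1
  have hsK : 1 ≤ Real.sqrt K := Real.one_le_sqrt.mpr hK1
  have hTT : Real.sqrt T * Real.sqrt T = T := Real.mul_self_sqrt (by linarith)
  have hKK : Real.sqrt K * Real.sqrt K = K := Real.mul_self_sqrt (by linarith)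
  -- n ≤ 2 √T √K x
  have h4 : (n : ℝ) ≤ 2 * (Real.sqrt T * Real.sqrt K * x) := by
    set y := Real.sqrt T * Real.sqrt K * x with hy
    by_contra hcon
    push Not at hcon
    have e1 : x ≤ y := by
      have : 1 ≤ Real.sqrt T * Real.sqrt K := by nlinarith
      rw [hy]
      nlinarith
    have e2 : T * (K * x) * x = y * y := by
      calc T * (K * x) * x = (Real.sqrt T * Real.sqrt T) * ((Real.sqrt K * Real.sqrt K) * x) * x := by
            rw [hTT, hKK]
        _ = y * y := by rw [hy]; ring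
    have e3 : x * (n + T * (K * x)) = x * n + y * y := by rw [← e2]; ring
    rw [e3] at h3
    have hy0 : 0 ≤ y := by linarith
    nlinarith
  have h5 : Real.sqrt T ≤ T := by nlinarith
  have h7 : (n : ℝ) ^ (1 - (C + 1) / Real.log L) * ((n : ℝ) ^ (1 / Real.log L) * T) = n := by
    rw [hT, ← Real.rpow_add hn0, ← Real.rpow_add hn0]
    have : 1 - (C + 1) / Real.log L + (1 / Real.log L + C / Real.log L) = 1 := by
      ring
    rw [this, Real.rpow_one]
  have h8 : (0 : ℝ) < (n : ℝ) ^ (1 / Real.log L) * T := by positivity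
  refine le_of_mul_le_mul_right ?_ h8
  rw [h7]
  have h9 : 0 ≤ Real.sqrt T * Real.sqrt K * x := by positivity
  have h10 : Real.sqrt T * Real.sqrt K * x ≤ T * Real.sqrt K * x :=
    mul_le_mul_of_nonneg_right (mul_le_mul_of_nonneg_right h5 (by positivity)) hx0
  calc (n : ℝ) ≤ 2 * (Real.sqrt T * Real.sqrt K * x) := h4
    _ ≤ (n : ℝ) ^ (1 / Real.log L) * (Real.sqrt T * Real.sqrt K * x) := mul_le_mul_of_nonneg_right h6 h9
    _ ≤ (n : ℝ) ^ (1 / Real.log L) * (T * Real.sqrt K * x) := mul_le_mul_of_nonneg_left h10 (by positivity)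
    _ = J * Real.sqrt K * (A.card : ℝ) * ((n : ℝ) ^ (1 / Real.log L) * T) := by rw [hx]; ring

end Pool.Agent.SqLB
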